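import Pool.Agent.TH592.Nag.Bridge

/-! Duality over a field, and reduction mod 2, for explicit singular chains. -/

set_option autoImplicit false

namespace Pool.Agent.Q145.Nag

open Pool.Agent.Helper381 Pool.Agent.TH592.Nag Module

noncomputable section

section Basic

variable {R : Type} [CommRing R] {X : Type} [TopologicalSpace X]

theorem bd_single (n : ℕ) (σ : Sing X (n + 1)) (a : R) :
    bd R X n (Finsupp.single σ a) =
      ∑ i : Fin (n + 2), ((-1 : ℤ) ^ (i : ℕ)) • Finsupp.single (sface n i σ) a := by
  rw [bd, Finsupp.linearCombination_single, Finset.smul_sum]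
  refine Finset.sum_congr rfl fun i _ => ?_
  rw [smul_comm, Finsupp.smul_single, smul_eq_mul, mul_one]

/-- evaluation of cochains on chains -/
def ev (n : ℕ) (f : Sing X n → R) : (Sing X n →₀ R) →ₗ[R] R :=
  Finsupp.linearCombination R f

theorem ev_single (n : ℕ) (f : Sing X n → R) (σ : Sing X n) (a : R) :
    ev n f (Finsupp.single σ a) = a * f σ := by
  rw [ev, Finsupp.linearCombination_single, smul_eq_mul]

theorem ev_bd (n : ℕ) (f : Sing X n → R) (c : Sing X (n + 1) →₀ R) :
    ev n f (bd R X n c) = ev (n + 1) (altd R (sface (X := X)) n f) c := by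
  have h : ev n f ∘ₗ bd R X n = ev (n + 1) (altd R (sface (X := X)) n f) := by
    refine Finsupp.lhom_ext' fun σ => LinearMap.ext_ring ?_
    simp only [LinearMap.comp_apply, Finsupp.lsingle_apply]
    rw [bd_single, ev_single, one_mul, map_sum]
    change _ = ∑ i : Fin (n + 2), (-1 : R) ^ (i : ℕ) * f (sface n i σ)
    refine Finset.sum_congr rfl fun i _ => ?_
    rw [map_zsmul, ev_single, one_mul, zsmul_eq_mul]
    push_cast
    rfl
  exact LinearMap.congr_fun h c

theorem altd_sface_sq (n : ℕ) (f : Sing X n → R) :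
    altd R (sface (X := X)) (n + 1) (altd R (sface (X := X)) n f) = 0 :=
  altd_altd (sface (X := X)) (fun n i j σ h => sface_sface n i j σ h) n f

theorem ev_fun (n : ℕ) (g : (Sing X n →₀ R) →ₗ[R] R) :
    ev n (fun σ => g (Finsupp.single σ 1)) = g := by
  refine Finsupp.lhom_ext' fun σ => LinearMap.ext_ring ?_
  simp only [LinearMap.comp_apply, Finsupp.lsingle_apply]
  rw [ev_single, one_mul]

theorem bd_bd (n : ℕ) (c : Sing X (n + 2) →₀ R) : bd R X n (bd R X (n + 1) c) = 0 := by
  classical
  ext σ
  have h := (ev_bd n (Pi.single σ (1 : R)) (bd R X (n + 1) c)).trans (ev_bd (n + 1) _ c)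
  rw [altd_sface_sq] at h
  have h0 : ∀ x : Sing X n →₀ R, ev n (Pi.single σ (1 : R)) x = x σ := by
    intro x
    rw [ev, Finsupp.linearCombination_apply, Finsupp.sum]
    classical
    by_cases hx : σ ∈ x.support
    · rw [Finset.sum_eq_single σ]
      · simp
      · intro τ _ hτ
        simp [hτ]
      · intro h; exact absurd hx h
    · rw [Finsupp.notMem_support_iff.mp hx]
      apply Finset.sum_eq_zero
      intro τ hτ
      have : τ ≠ σ := by
        rintro rfl
        exact hx hτ
      simp [this]
  rw [h0] at h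
  rw [h, ev, Finsupp.coe_zero, Pi.zero_apply]
  simp

theorem bou_le_cyc (n : ℕ) : bou R X n ≤ cyc R X n := by
  rintro _ ⟨y, rfl⟩
  cases n with
  | zero => trivial
  | succ n => exact bd_bd n y

end Basic

section CorrTop

universe u v w

/-- a linear relation inducing a bijection between a subquotient and a module -/
theorem corr_top {k : Type u} [CommRing k] {X : Type v} {Y : Type w} [AddCommGroup X] [Module k X]
    [AddCommGroup Y] [Module k Y]
    (ZX BX : Submodule k X) (P : Submodule k (X × Y))
    (h1 : ∀ x ∈ ZX, ∃ y, (x, y) ∈ P)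
    (h2 : ∀ y, ∃ x ∈ ZX, (x, y) ∈ P)
    (h3 : ∀ x ∈ ZX, ∀ y, (x, y) ∈ P → (x ∈ BX ↔ y = 0)) :
    Nonempty ((ZX ⧸ BX.comap ZX.subtype) ≃ₗ[k] Y) := by
  obtain ⟨e⟩ := corr (k := k) ZX BX (⊤ : Submodule k Y) ⊥ P
    (fun x hx => by
      obtain ⟨y, hy⟩ := h1 x hx
      exact ⟨y, trivial, hy⟩)
    (fun y _ => h2 y)
    (fun x hx y _ hxy => by rw [Submodule.mem_bot]; exact h3 x hx y hxy)
  have h0 : (⊥ : Submodule k Y).comap (⊤ : Submodule k Y).subtype = ⊥ := by
    rw [eq_bot_iff]
    intro x hx
    have : (x : Y) = 0 := hx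
    exact (Submodule.mem_bot k).mpr (Subtype.ext this)
  exact ⟨e.trans ((Submodule.quotEquivOfEqBot _ h0).trans Submodule.topEquiv)⟩

end CorrTop

section DualGen

universe u v w

/-- duality for subquotients -/
theorem dual_gen {k : Type u} [Field k] {F : Type v} {V : Type w} [AddCommGroup F] [Module k F]
    [AddCommGroup V] [Module k V] (e : F ≃ₗ[k] Module.Dual k V) (ZF BF : Submodule k F)
    (Z B : Submodule k V) (h1 : ∀ f, f ∈ ZF ↔ ∀ b ∈ B, e f b = 0)
    (h2 : ∀ f, f ∈ BF ↔ ∀ z ∈ Z, e f z = 0) (hBZ : B ≤ Z) :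
    Nonempty ((ZF ⧸ BF.comap ZF.subtype) ≃ₗ[k] Module.Dual k (Z ⧸ B.submoduleOf Z)) := by
  let P : Submodule k (F × Module.Dual k (Z ⧸ B.submoduleOf Z)) :=
    { carrier := {p | ∀ z : Z, e p.1 z.1 = p.2 (Submodule.Quotient.mk z)}
      add_mem' := by
        intro p q hp hq z
        have h1 := hp z
        have h2 := hq z
        simp only [Prod.fst_add, Prod.snd_add, LinearMap.add_apply, ← h1, ← h2, map_add]
      zero_mem' := by
        intro z
        simp
      smul_mem' := by
        intro c p hp z
        have h1 := hp z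
        simp only [Prod.smul_fst, Prod.smul_snd, LinearMap.smul_apply, ← h1, map_smul] }
  have memP : ∀ f φ, (f, φ) ∈ P ↔ ∀ z : Z, e f z.1 = φ (Submodule.Quotient.mk z) :=
    fun f φ => Iff.rfl
  apply corr_top (k := k) ZF BF P
  · intro f hf
    refine ⟨Submodule.liftQ _ ((e f).comp Z.subtype) ?_, ?_⟩
    · rintro ⟨z, hz⟩ hzB
      exact (h1 f).1 hf z hzB
    · rw [memP]
      intro z
      rfl
  · intro φ
    obtain ⟨g, hg⟩ := LinearMap.exists_extend (φ.comp (B.submoduleOf Z).mkQ)
    refine ⟨e.symm g, ?_, ?_⟩
    · rw [h1]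
      intro b hb
      rw [LinearEquiv.apply_symm_apply]
      have h3 := LinearMap.congr_fun hg ⟨b, hBZ hb⟩
      refine Eq.trans h3 ?_
      have h4 : (B.submoduleOf Z).mkQ ⟨b, hBZ hb⟩ = 0 := by
        rw [Submodule.mkQ_apply, Submodule.Quotient.mk_eq_zero]
        exact hb
      rw [LinearMap.comp_apply, h4, map_zero]
    · rw [memP]
      intro z
      rw [LinearEquiv.apply_symm_apply]
      exact LinearMap.congr_fun hg z
  · intro f hf φ hfφ
    rw [memP] at hfφ
    rw [h2]
    constructor
    · intro hz
      ext x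
      have := hfφ x
      rw [hz x.1 x.2] at this
      exact this.symm
    · rintro rfl z hz
      exact (hfφ ⟨z, hz⟩).trans rfl

end DualGen

section Duality

variable (k : Type) [Field k] (X : Type) [TopologicalSpace X]

/-- cochains are the dual of chains -/
def evE (n : ℕ) : (Sing X n → k) ≃ₗ[k] Module.Dual k (Sing X n →₀ k) :=
  Finsupp.llift k k k (Sing X n)

theorem evE_apply (n : ℕ) (f : Sing X n → k) (c : Sing X n →₀ k) : evE k X n f c = ev n f c := by
  simp only [evE, ev, Finsupp.llift_apply, Finsupp.lift_apply, Finsupp.linearCombination_apply]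

/-- cohomology over a field is the dual of homology -/
theorem dual_equiv (n : ℕ) : Nonempty (SingCoh k X n ≃ₗ[k] Module.Dual k (Hm k X n)) := by
  apply dual_gen (evE k X n) (LinearMap.ker (altd k (sface (X := X)) n))
    (cobound k (fun n => Sing X n → k) (fun n => altd k (sface (X := X)) n) n)
    (cyc k X n) (bou k X n)
  · intro f
    rw [LinearMap.mem_ker]
    constructor
    · rintro hf _ ⟨y, rfl⟩
      rw [evE_apply, ev_bd, hf]
      simp [ev]
    · intro h
      funext σ
      have h1 := h (bd k X n (Finsupp.single σ 1)) ⟨_, rfl⟩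
      rw [evE_apply, ev_bd, ev_single, one_mul] at h1
      exact h1
  · intro f
    cases n with
    | zero =>
      constructor
      · intro hf z _
        have hf' : f = 0 := hf
        rw [hf', map_zero]
        rfl
      · intro h
        change f = 0
        funext σ
        have h1 := h (Finsupp.single σ 1) trivial
        rw [evE_apply, ev_single, one_mul] at h1
        exact h1
    | succ n =>
      constructor
      · rintro ⟨g, rfl⟩ z hz
        have hz' : bd k X n z = 0 := hz
        rw [evE_apply]
        change ev (n + 1) (altd k (sface (X := X)) n g) z = 0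
        rw [← ev_bd, hz', map_zero]
      · intro h
        have h1 : ev (n + 1) f ∈ (LinearMap.ker (bd k X n)).dualAnnihilator := by
          rw [Submodule.mem_dualAnnihilator]
          intro w hw
          rw [← evE_apply]
          exact h w hw
        rw [← LinearMap.range_dualMap_eq_dualAnnihilator_ker] at h1
        obtain ⟨g, hg⟩ := h1
        refine ⟨fun σ => g (Finsupp.single σ 1), ?_⟩
        funext σ
        have h2 := ev_bd n (fun σ => g (Finsupp.single σ 1)) (Finsupp.single σ (1 : k))
        rw [ev_single, one_mul, ev_fun] at h2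
        change altd k (sface (X := X)) n (fun σ => g (Finsupp.single σ 1)) σ = f σ
        rw [← h2]
        have h3 := LinearMap.congr_fun hg (Finsupp.single σ 1)
        rw [LinearMap.dualMap_apply, ev_single, one_mul] at h3
        exact h3
  · exact bou_le_cyc n

theorem finrank_singCoh (n : ℕ) : finrank k (SingCoh k X n) = finrank k (Hm k X n) := by
  obtain ⟨e⟩ := dual_equiv k X n
  rw [e.finrank_eq, Subspace.dual_finrank_eq]

theorem finite_Hm (n : ℕ) (h : Module.Finite k (SingCoh k X n)) : Module.Finite k (Hm k X n) := by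
  obtain ⟨e⟩ := dual_equiv k X n
  have : Module.Finite k (Module.Dual k (Hm k X n)) := Module.Finite.equiv e
  exact Module.finite_dual_iff k |>.mp this

end Duality

end

end Pool.Agent.Q145.Nag
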