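import Pool.Agent.Q145.Nag.A1

/-! No 2-torsion in integral homology: mod 2 Betti numbers are at most the real ones. -/

set_option autoImplicit false

namespace Pool.Agent.Q145.Nag

open Pool.Agent.Helper381 Pool.Agent.TH592.Nag Module

noncomputable section

variable {X : Type} [TopologicalSpace X]

/-- change of coefficients -/
def cc {A B : Type} [AddCommGroup A] [AddCommGroup B] (θ : A →+ B) (n : ℕ) :
    (Sing X n →₀ A) →+ (Sing X n →₀ B) :=
  Finsupp.mapRange.addMonoidHom θ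

theorem cc_apply {A B : Type} [AddCommGroup A] [AddCommGroup B] (θ : A →+ B) (n : ℕ)
    (c : Sing X n →₀ A) (σ : Sing X n) : cc θ n c σ = θ (c σ) := rfl

theorem cc_single {A B : Type} [AddCommGroup A] [AddCommGroup B] (θ : A →+ B) (n : ℕ)
    (σ : Sing X n) (a : A) : cc θ n (Finsupp.single σ a) = Finsupp.single σ (θ a) := by
  rw [cc, Finsupp.mapRange.addMonoidHom_apply, Finsupp.mapRange_single]

theorem cc_bd {A B : Type} [CommRing A] [CommRing B] (θ : A →+ B) (n : ℕ)
    (c : Sing X (n + 1) →₀ A) : cc θ n (bd A X n c) = bd B X n (cc θ (n + 1) c) := by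
  induction c using Finsupp.induction_linear with
  | zero => simp only [map_zero]
  | add f g hf hg => simp only [map_add, hf, hg]
  | single σ a =>
    rw [cc_single, bd_single, bd_single, map_sum]
    refine Finset.sum_congr rfl fun i _ => ?_
    rw [map_zsmul, cc_single]

/-- an integral chain with even coefficients -/
theorem even_chain {n : ℕ} (c : Sing X n →₀ ℤ)
    (h : cc (Int.castAddHom (ZMod 2)) n c = 0) : ∃ b : Sing X n →₀ ℤ, c = (2 : ℤ) • b := by
  have h1 : ∀ σ, ∃ y : ℤ, c σ = 2 * y := by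
    intro σ
    have h2 := DFunLike.congr_fun h σ
    rw [cc_apply] at h2
    exact (ZMod.intCast_zmod_eq_zero_iff_dvd (c σ) 2).mp h2
  refine ⟨Finsupp.mapRange (fun a : ℤ => a / 2) (by norm_num) c, ?_⟩
  ext σ
  rw [Finsupp.smul_apply, Finsupp.mapRange_apply, smul_eq_mul]
  obtain ⟨y, hy⟩ := h1 σ
  omega

theorem lift_chain {n : ℕ} (c : Sing X n →₀ ZMod 2) :
    ∃ b : Sing X n →₀ ℤ, cc (Int.castAddHom (ZMod 2)) n b = c := by
  refine ⟨Finsupp.mapRange (fun a : ZMod 2 => (a.val : ℤ)) (by simp) c, ?_⟩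
  ext σ
  rw [cc_apply, Finsupp.mapRange_apply]
  simp

/-- if there is no 2-torsion then mod 2 cycles lift to integral cycles -/
theorem lift_cycle {n : ℕ}
    (h : ∀ m, n = m + 1 → ∀ z : Sing X m →₀ ℤ, z ∈ cyc ℤ X m → (2 : ℤ) • z ∈ bou ℤ X m →
      z ∈ bou ℤ X m) (c : Sing X n →₀ ZMod 2) (hc : c ∈ cyc (ZMod 2) X n) :
    ∃ b : Sing X n →₀ ℤ, b ∈ cyc ℤ X n ∧ cc (Int.castAddHom (ZMod 2)) n b = c := by
  obtain ⟨b, hb⟩ := lift_chain c
  cases n with
  | zero => exact ⟨b, trivial, hb⟩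
  | succ m =>
    have h1 : cc (Int.castAddHom (ZMod 2)) m (bd ℤ X m b) = 0 := by
      rw [cc_bd, hb]; exact hc
    obtain ⟨w, hw⟩ := even_chain _ h1
    have h2 : w ∈ cyc ℤ X m := by
      cases m with
      | zero => trivial
      | succ l =>
        have h3 : bd ℤ X l ((2 : ℤ) • w) = 0 := by rw [← hw, bd_bd]
        rw [map_smul] at h3
        change bd ℤ X l w = 0
        ext σ
        have h4 := DFunLike.congr_fun h3 σ
        rw [Finsupp.smul_apply, smul_eq_mul, Finsupp.coe_zero, Pi.zero_apply] at h4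
        rw [Finsupp.coe_zero, Pi.zero_apply]
        omega
    obtain ⟨v, hv⟩ := h m rfl w h2 ⟨b, hw⟩
    refine ⟨b - (2 : ℤ) • v, ?_, ?_⟩
    · change bd ℤ X m (b - (2 : ℤ) • v) = 0
      rw [map_sub, map_smul, hv, hw, sub_self]
    · rw [map_sub, hb, map_zsmul]
      have h5 : (2 : ℤ) • cc (Int.castAddHom (ZMod 2)) (m + 1) v = 0 := by
        ext σ
        rw [Finsupp.smul_apply, zsmul_eq_mul, Finsupp.coe_zero, Pi.zero_apply]
        have : ((2 : ℤ) : ZMod 2) = 0 := rfl
        rw [this, zero_mul]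
      rw [h5, sub_zero]

theorem common_den (T : Finset ℚ) : ∃ N : ℕ, 0 < N ∧ ∀ q ∈ T, ∃ a : ℤ, (a : ℚ) = N * q := by
  refine ⟨∏ q ∈ T, q.den, Finset.prod_pos fun q _ => q.pos, fun q hq => ?_⟩
  obtain ⟨m, hm⟩ := Finset.dvd_prod_of_mem (fun q : ℚ => q.den) hq
  refine ⟨m * q.num, ?_⟩
  rw [hm]
  push_cast
  have h1 : (q.den : ℚ) * q = q.num := by
    rw [mul_comm]; exact Rat.mul_den_eq_num q
  calc (m : ℚ) * q.num = m * (q.den * q) := by rw [h1]
    _ = _ := by ring

/-- real relations among integral cycles give integral relations -/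
theorem int_relation {ι : Type} [Fintype ι] {n : ℕ} (z : ι → (Sing X n →₀ ℤ)) (r : ι → ℝ)
    (y : Sing X (n + 1) →₀ ℝ)
    (hy : bd ℝ X n y = ∑ i, r i • cc (Int.castAddHom ℝ) n (z i)) (j : ι) (hj : r j ≠ 0) :
    ∃ a : ι → ℤ, a j ≠ 0 ∧ ∑ i, a i • z i ∈ bou ℤ X n := by
  classical
  obtain ⟨lam, hlam⟩ : ∃ f : Module.Dual ℚ ℝ, f (r j) ≠ 0 := by
    by_contra hcon
    push Not at hcon
    exact hj ((Module.forall_dual_apply_eq_zero_iff ℚ (r j)).mp hcon)
  obtain ⟨N, hN, hT⟩ := common_den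
    ((Finset.univ.image fun i => lam (r i)) ∪ (y.support.image fun σ => lam (y σ)))
  have h1 : ∀ i, ∃ a : ℤ, (a : ℚ) = N * lam (r i) := fun i =>
    hT _ (Finset.mem_union_left _ (Finset.mem_image_of_mem _ (Finset.mem_univ i)))
  choose a ha using h1
  have h2 : ∀ σ, ∃ b : ℤ, (b : ℚ) = N * lam (y σ) := by
    intro σ
    by_cases hσ : σ ∈ y.support
    · exact hT _ (Finset.mem_union_right _ (Finset.mem_image_of_mem _ hσ))
    · rw [Finsupp.notMem_support_iff.mp hσ]
      exact ⟨0, by simp⟩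
  choose b hb using h2
  let y' : Sing X (n + 1) →₀ ℤ := Finsupp.onFinset y.support b (by
    intro σ hσ
    rw [Finsupp.mem_support_iff]
    intro h0
    apply hσ
    have := hb σ
    rw [h0, map_zero, mul_zero] at this
    exact_mod_cast this)
  refine ⟨a, ?_, y', ?_⟩
  · intro h0
    have := ha j
    rw [h0, Int.cast_zero] at this
    have hN' : (N : ℚ) ≠ 0 := by positivity
    exact hlam ((mul_eq_zero.mp this.symm).resolve_left hN')
  · -- compare after the injection to ℚ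
    let θ : ℝ →+ ℚ := (((N : ℚ) • lam : ℝ →ₗ[ℚ] ℚ) : ℝ →+ ℚ)
    have hθ : ∀ x, θ x = N * lam x := fun x => rfl
    have e1 : cc (Int.castAddHom ℚ) (n + 1) y' = cc θ (n + 1) y := by
      ext σ
      rw [cc_apply, cc_apply, hθ]
      exact hb σ
    have e2 := congrArg (cc θ n) hy
    rw [cc_bd, ← e1, ← cc_bd, map_sum] at e2
    ext σ
    have e3 := DFunLike.congr_fun e2 σ
    have e4 : ∀ i, cc θ n (r i • cc (Int.castAddHom ℝ) n (z i)) σ = (a i : ℚ) * (z i σ : ℚ) := by
      intro i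
      rw [cc_apply, Finsupp.smul_apply, cc_apply, hθ, ha, smul_eq_mul]
      change (N : ℚ) * lam (r i * ((z i σ : ℤ) : ℝ)) = _
      have : r i * ((z i σ : ℤ) : ℝ) = (z i σ) • r i := by
        rw [zsmul_eq_mul]; ring
      rw [this, map_zsmul, zsmul_eq_mul]
      ring
    rw [cc_apply, Finsupp.finsetSum_apply, Finset.sum_congr rfl fun i _ => e4 i] at e3
    rw [Finsupp.finsetSum_apply]
    have e5 : ((bd ℤ X n y' σ : ℤ) : ℚ) = ((∑ i, (a i • z i) σ : ℤ) : ℚ) := by
      refine Eq.trans e3 ?_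
      push_cast
      refine Finset.sum_congr rfl fun i _ => ?_
      simp
    exact_mod_cast e5

theorem finrank_le (n : ℕ)
    (h : ∀ m, ∀ z : Sing X m →₀ ℤ, z ∈ cyc ℤ X m → (2 : ℤ) • z ∈ bou ℤ X m →
      z ∈ bou ℤ X m) (hfin : Module.Finite ℝ (Hm ℝ X n)) :
    finrank (ZMod 2) (Hm (ZMod 2) X n) ≤ finrank ℝ (Hm ℝ X n) := by
  classical
  have : Fact (Nat.Prime 2) := ⟨Nat.prime_two⟩
  rcases Nat.eq_zero_or_pos (finrank (ZMod 2) (Hm (ZMod 2) X n)) with h0 | h0
  · rw [h0]; exact Nat.zero_le _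
  have hf2 : Module.Finite (ZMod 2) (Hm (ZMod 2) X n) := Module.finite_of_finrank_pos h0
  set m := finrank (ZMod 2) (Hm (ZMod 2) X n) with hm
  let v := Module.finBasis (ZMod 2) (Hm (ZMod 2) X n)
  have h1 : ∀ i, ∃ z : Sing X n →₀ ZMod 2, ∃ hz : z ∈ cyc (ZMod 2) X n,
      (Submodule.Quotient.mk ⟨z, hz⟩ : Hm (ZMod 2) X n) = v i := by
    intro i
    obtain ⟨⟨z, hz⟩, h2⟩ := Submodule.Quotient.mk_surjective _ (v i)
    exact ⟨z, hz, h2⟩
  choose z hz hzv using h1
  have h2 : ∀ i, ∃ b : Sing X n →₀ ℤ, b ∈ cyc ℤ X n ∧ cc (Int.castAddHom (ZMod 2)) n b = z i :=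
    fun i => lift_cycle (fun m _ => h m) (z i) (hz i)
  choose b hb hbz using h2
  -- divisibility
  have key1 : ∀ a : Fin m → ℤ, ∑ i, a i • b i ∈ bou ℤ X n → ∀ i, (2 : ℤ) ∣ a i := by
    rintro a ⟨y, hy⟩
    have e1 := congrArg (cc (Int.castAddHom (ZMod 2)) n) hy
    rw [cc_bd, map_sum] at e1
    have e2 : ∑ i, (a i : ZMod 2) • v i = 0 := by
      have e3 : ∑ i, (a i : ZMod 2) • v i = (Submodule.Quotient.mk
          (∑ i, (a i : ZMod 2) • (⟨z i, hz i⟩ : cyc (ZMod 2) X n)) : Hm (ZMod 2) X n) := by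
        rw [← Submodule.mkQ_apply, map_sum]
        refine Finset.sum_congr rfl fun i _ => ?_
        rw [map_smul, Submodule.mkQ_apply, hzv]
      rw [e3, Submodule.Quotient.mk_eq_zero]
      refine ⟨cc (Int.castAddHom (ZMod 2)) (n + 1) y, ?_⟩
      rw [e1]
      rw [map_sum]
      refine Finset.sum_congr rfl fun i _ => ?_
      rw [map_zsmul, hbz]
      change _ = (a i : ZMod 2) • z i
      ext σ
      simp
    have e4 := (Fintype.linearIndependent_iff.mp v.linearIndependent) _ e2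
    intro i
    exact (ZMod.intCast_zmod_eq_zero_iff_dvd (a i) 2).mp (e4 i)
  have key2 : ∀ k : ℕ, ∀ a : Fin m → ℤ, ∑ i, a i • b i ∈ bou ℤ X n → ∀ i, (2 : ℤ) ^ k ∣ a i := by
    intro k
    induction k with
    | zero => intro a _ i; simp
    | succ k ih =>
      intro a ha i
      have h3 := key1 a ha
      choose c hc using h3
      have h4 : ∑ i, a i • b i = (2 : ℤ) • ∑ i, c i • b i := by
        rw [Finset.smul_sum]
        refine Finset.sum_congr rfl fun i _ => ?_
        rw [smul_smul, ← hc]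
      have h5 : ∑ i, c i • b i ∈ bou ℤ X n := by
        apply h n
        · exact Submodule.sum_mem _ fun i _ => Submodule.smul_mem _ _ (hb i)
        · rw [← h4]; exact ha
      rw [hc i, pow_succ, mul_comm]
      exact mul_dvd_mul_left _ (ih c h5 i)
  have key3 : ∀ a : Fin m → ℤ, ∑ i, a i • b i ∈ bou ℤ X n → ∀ i, a i = 0 := by
    intro a ha i
    have h3 := key2 (a i).natAbs a ha i
    apply Int.eq_zero_of_abs_lt_dvd h3
    have h4 : (a i).natAbs < 2 ^ (a i).natAbs := Nat.lt_two_pow_self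
    have h5 : ((a i).natAbs : ℤ) < 2 ^ (a i).natAbs := by exact_mod_cast h4
    rwa [Int.natCast_natAbs] at h5
  -- real independence
  have hw : ∀ i, cc (Int.castAddHom ℝ) n (b i) ∈ cyc ℝ X n := by
    intro i
    have := hb i
    cases n with
    | zero => trivial
    | succ n =>
      change bd ℝ X n _ = 0
      rw [← cc_bd]
      have h3 : bd ℤ X n (b i) = 0 := this
      rw [h3, map_zero]
  have hli : LinearIndependent ℝ (fun i : Fin m =>
      (Submodule.Quotient.mk ⟨_, hw i⟩ : Hm ℝ X n)) := by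
    rw [Fintype.linearIndependent_iff]
    intro r hr i
    by_contra hri
    have e3 : (Submodule.Quotient.mk
          (∑ i, r i • (⟨_, hw i⟩ : cyc ℝ X n)) : Hm ℝ X n) = 0 := by
      rw [← hr, ← Submodule.mkQ_apply, map_sum]
      refine Finset.sum_congr rfl fun i _ => ?_
      rw [map_smul, Submodule.mkQ_apply]
    rw [Submodule.Quotient.mk_eq_zero] at e3
    obtain ⟨y, hy⟩ := e3
    rw [map_sum] at hy
    obtain ⟨a, ha, hab⟩ := int_relation b r y hy i hri
    exact ha (key3 a hab i)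
  have := hli.fintype_card_le_finrank
  rwa [Fintype.card_fin] at this

end

end Pool.Agent.Q145.Nag
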