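import Pool.Agent.Helper381.Nerve
import Pool.Agent.Helper381.Small

/-! Cohomology vanishes above the order of a cover that refines a good cover. -/

set_option autoImplicit false

namespace Pool.Agent.Q145.Nag

open Pool.Agent.Helper381 Set

noncomputable section

section Stair

variable {k : Type} [CommRing k]
  {D : ℕ → ℕ → Type} [∀ p q, AddCommGroup (D p q)] [∀ p q, Module k (D p q)]
  {D' : ℕ → ℕ → Type} [∀ p q, AddCommGroup (D' p q)] [∀ p q, Module k (D' p q)]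
  (d1 : ∀ p q, D p q →ₗ[k] D (p + 1) q) (d2 : ∀ p q, D p q →ₗ[k] D p (q + 1))
  (e1 : ∀ p q, D' p q →ₗ[k] D' (p + 1) q) (e2 : ∀ p q, D' p q →ₗ[k] D' p (q + 1))

/-- null elements -/
def Null (p : ℕ) : ∀ q, D' (p + 1) q → Prop
  | 0, x => x = 0
  | (q + 1), x => ∃ z : D' p q, e1 p (q + 1) (e2 p q z) = x

theorem null_step
    (e22 : ∀ p q x, e2 p (q + 1) (e2 p q x) = 0)
    (e12 : ∀ p q x, e1 p (q + 1) (e2 p q x) = e2 (p + 1) q (e1 p q x))
    (ex1 : ∀ p q x, e1 (p + 1) q x = 0 → ∃ y, e1 p q y = x)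
    (p q : ℕ) (y : D' (p + 1) q) (h : Null e1 e2 (p + 1) q (e1 (p + 1) q y)) :
    ∃ z : D' p q, e1 p (q + 1) (e2 p q z) = e2 (p + 1) q y := by
  cases q with
  | zero =>
    have h' : e1 (p + 1) 0 y = 0 := h
    obtain ⟨z, hz⟩ := ex1 _ _ _ h'
    exact ⟨z, by rw [e12, hz]⟩
  | succ q =>
    obtain ⟨w, hw⟩ := h
    have h' : e1 (p + 1) (q + 1) (y - e2 (p + 1) q w) = 0 := by
      rw [map_sub, hw, sub_self]
    obtain ⟨z, hz⟩ := ex1 _ _ _ h'
    refine ⟨z, ?_⟩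
    rw [e12, hz, map_sub, e22, sub_zero]

theorem stair
    (Φ : ∀ p q, D p q →ₗ[k] D' p q)
    (hΦ1 : ∀ p q x, Φ (p + 1) q (d1 p q x) = e1 p q (Φ p q x))
    (hΦ2 : ∀ p q x, Φ p (q + 1) (d2 p q x) = e2 p q (Φ p q x))
    (d11 : ∀ p q x, d1 (p + 1) q (d1 p q x) = 0)
    (d12 : ∀ p q x, d1 p (q + 1) (d2 p q x) = d2 (p + 1) q (d1 p q x))
    (e22 : ∀ p q x, e2 p (q + 1) (e2 p q x) = 0)
    (e12 : ∀ p q x, e1 p (q + 1) (e2 p q x) = e2 (p + 1) q (e1 p q x))
    (dx2 : ∀ p q x, d2 p (q + 1) x = 0 → ∃ y, d2 p q y = x)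
    (ex1 : ∀ p q x, e1 (p + 1) q x = 0 → ∃ y, e1 p q y = x)
    (n : ℕ) (triv : ∀ p, n ≤ p → ∀ x : D' p 0, x = 0) :
    ∀ q p, n ≤ p + 1 + q → ∀ u : D (p + 1) q, d1 (p + 1) q u = 0 → d2 (p + 1) q u = 0 →
      Null e1 e2 p q (Φ (p + 1) q u) := by
  intro q
  induction q with
  | zero =>
    intro p hp u _ _
    exact triv (p + 1) hp _
  | succ q ih =>
    intro p hp u hu1 hu2
    obtain ⟨y, hy⟩ := dx2 _ _ _ hu2
    have h1 := ih (p + 1) (by omega) (d1 (p + 1) q y) (d11 _ _ _) (by rw [← d12, hy, hu1])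
    rw [hΦ1] at h1
    obtain ⟨z, hz⟩ := null_step e1 e2 e22 e12 ex1 p q _ h1
    refine ⟨z, ?_⟩
    rw [hz, ← hΦ2, hy]

theorem stair_end {A' : ℕ → Type} [∀ q, AddCommGroup (A' q)] [∀ q, Module k (A' q)]
    (ε' : ∀ q, A' q →ₗ[k] D' 0 q)
    (Φ : ∀ p q, D p q →ₗ[k] D' p q)
    (hΦ1 : ∀ p q x, Φ (p + 1) q (d1 p q x) = e1 p q (Φ p q x))
    (hΦ2 : ∀ p q x, Φ p (q + 1) (d2 p q x) = e2 p q (Φ p q x))
    (d11 : ∀ p q x, d1 (p + 1) q (d1 p q x) = 0)
    (d12 : ∀ p q x, d1 p (q + 1) (d2 p q x) = d2 (p + 1) q (d1 p q x))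
    (e22 : ∀ p q x, e2 p (q + 1) (e2 p q x) = 0)
    (e12 : ∀ p q x, e1 p (q + 1) (e2 p q x) = e2 (p + 1) q (e1 p q x))
    (dx2 : ∀ p q x, d2 p (q + 1) x = 0 → ∃ y, d2 p q y = x)
    (ex1 : ∀ p q x, e1 (p + 1) q x = 0 → ∃ y, e1 p q y = x)
    (εex : ∀ q x, e1 0 q x = 0 → ∃ a, ε' q a = x)
    (n : ℕ) (triv : ∀ p, n ≤ p → ∀ x : D' p 0, x = 0)
    (q : ℕ) (hq : n ≤ q + 1) (u : D 0 (q + 1)) (hu1 : d1 0 (q + 1) u = 0)
    (hu2 : d2 0 (q + 1) u = 0) : ∃ w : A' q, e2 0 q (ε' q w) = Φ 0 (q + 1) u := by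
  obtain ⟨y, hy⟩ := dx2 _ _ _ hu2
  have h1 := stair d1 d2 e1 e2 Φ hΦ1 hΦ2 d11 d12 e22 e12 dx2 ex1 n triv q 0 (by omega)
    (d1 0 q y) (d11 _ _ _) (by rw [← d12, hy, hu1])
  rw [hΦ1] at h1
  cases q with
  | zero =>
    have h' : e1 0 0 (Φ 0 0 y) = 0 := h1
    obtain ⟨w, hw⟩ := εex _ _ h'
    exact ⟨w, by rw [hw, ← hΦ2, hy]⟩
  | succ q =>
    obtain ⟨z, hz⟩ := h1
    have h' : e1 0 (q + 1) (Φ 0 (q + 1) y - e2 0 q z) = 0 := by
      rw [map_sub, hz, sub_self]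
    obtain ⟨w, hw⟩ := εex _ _ h'
    refine ⟨w, ?_⟩
    rw [hw, map_sub, e22, sub_zero, ← hΦ2, hy]

end Stair

section Cover

variable {k : Type} [CommRing k] {X : Type} [TopologicalSpace X]
  {ι : Type} [LinearOrder ι]

/-- increasing tuples of indices and simplices in the intersection -/
abbrev TT (W : ι → Set X) (p q : ℕ) : Type :=
  {x : Ch (univ : Set ι) p × Sing X q // ∀ i, Set.range x.2 ⊆ W (x.1.1 i)}

/-- deleting an index -/
def tf1 (W : ι → Set X) (q p : ℕ) (i : Fin (p + 2)) (z : TT W (p + 1) q) : TT W p q :=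
  ⟨(cface p i z.1.1, z.1.2), fun j => z.2 (i.succAbove j)⟩

/-- face of the simplex -/
def tf2 (W : ι → Set X) (p q : ℕ) (j : Fin (q + 2)) (z : TT W p (q + 1)) : TT W p q :=
  ⟨(z.1.1, sface q j z.1.2), fun i => (range_sface q j z.1.2).trans (z.2 i)⟩

/-- Cech differential -/
def td1 (k : Type) [CommRing k] (W : ι → Set X) (p q : ℕ) :
    (TT W p q → k) →ₗ[k] (TT W (p + 1) q → k) :=
  altd k (S := fun p => TT W p q) (fun p => tf1 W q p) p

/-- simplicial differential -/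
def td2 (k : Type) [CommRing k] (W : ι → Set X) (p q : ℕ) :
    (TT W p q → k) →ₗ[k] (TT W p (q + 1) → k) :=
  altd k (S := fun q => TT W p q) (fun q => tf2 W p q) q

theorem td11 (W : ι → Set X) (p q : ℕ) (f : TT W p q → k) :
    td1 k W (p + 1) q (td1 k W p q f) = 0 := by
  apply altd_altd
  intro n i j z hij
  apply Subtype.ext
  apply Prod.ext
  · exact cface_cface _ _ _ _ hij
  · rfl

theorem td22 (W : ι → Set X) (p q : ℕ) (f : TT W p q → k) :
    td2 k W p (q + 1) (td2 k W p q f) = 0 := by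
  apply altd_altd
  intro n i j z hij
  apply Subtype.ext
  apply Prod.ext
  · rfl
  · exact sface_sface _ _ _ _ hij

theorem td12 (W : ι → Set X) (p q : ℕ) (f : TT W p q → k) :
    td1 k W p (q + 1) (td2 k W p q f) = td2 k W (p + 1) q (td1 k W p q f) := by
  funext z
  simp only [td1, td2, altd_apply, Finset.mul_sum]
  rw [Finset.sum_comm]
  refine Finset.sum_congr rfl fun j _ => Finset.sum_congr rfl fun i _ => ?_
  have : tf2 W p q j (tf1 W (q + 1) p i z) = tf1 W q p i (tf2 W (p + 1) q j z) := rfl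
  rw [this]
  ring

/-- columns are exact if the intersections are coned -/
theorem td2_exact (W : ι → Set X)
    (hcone : ∀ p (c : Ch (univ : Set ι) p), (⋂ i, W (c.1 i)).Nonempty → ConeData (⋂ i, W (c.1 i)))
    [Nonempty X] (p q : ℕ) (f : TT W p (q + 1) → k) (hf : td2 k W p (q + 1) f = 0) :
    ∃ g, td2 k W p q g = f := by
  classical
  have hcone' : ∀ c : Ch (univ : Set ι) p, ∃ (K : ∀ q, Sing X q → Sing X (q + 1)),
    ((⋂ i, W (c.1 i)).Nonempty → (
    (∀ q (σ : Sing X q), Set.range σ ⊆ (⋂ i, W (c.1 i)) →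
      Set.range (K q σ) ⊆ (⋂ i, W (c.1 i)) ∧ sface q 0 (K q σ) = σ) ∧
    (∀ q (σ : Sing X (q + 1)), Set.range σ ⊆ (⋂ i, W (c.1 i)) → ∀ i : Fin (q + 2),
      sface (q + 1) i.succ (K (q + 1) σ) = K q (sface q i σ)))) := by
    intro c
    by_cases h : (⋂ i, W (c.1 i)).Nonempty
    · obtain ⟨pt, K, h1, h2, h3, h4⟩ := hcone p c h
      exact ⟨K, fun _ => ⟨h2, h3⟩⟩
    · exact ⟨fun q _ => ContinuousMap.const _ (Classical.arbitrary X), fun h' => absurd h' h⟩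
  choose K hK using hcone'
  have hne : ∀ {q : ℕ} (c : Ch (univ : Set ι) p) (σ : Sing X q),
      (∀ i, Set.range σ ⊆ W (c.1 i)) → (⋂ i, W (c.1 i)).Nonempty := by
    intro q c σ h
    obtain ⟨x⟩ : Nonempty (stdSimplex ℝ (Fin (q + 1))) := inferInstance
    exact ⟨σ x, Set.mem_iInter.mpr fun i => h i ⟨x, rfl⟩⟩
  have hsub : ∀ {q : ℕ} (c : Ch (univ : Set ι) p) (σ : Sing X q),
      (∀ i, Set.range σ ⊆ W (c.1 i)) → Set.range σ ⊆ ⋂ i, W (c.1 i) := by
    intro q c σ h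
    exact Set.subset_iInter h
  have hK1 : ∀ {q : ℕ} (c : Ch (univ : Set ι) p) (σ : Sing X q)
      (h : ∀ i, Set.range σ ⊆ W (c.1 i)), (∀ i, Set.range (K c q σ) ⊆ W (c.1 i)) := by
    intro q c σ h i
    exact (((hK c (hne c σ h)).1 q σ (hsub c σ h)).1).trans (Set.iInter_subset _ i)
  have hK0 : ∀ {q : ℕ} (c : Ch (univ : Set ι) p) (σ : Sing X q)
      (h : ∀ i, Set.range σ ⊆ W (c.1 i)), sface q 0 (K c q σ) = σ := by
    intro q c σ h
    exact ((hK c (hne c σ h)).1 q σ (hsub c σ h)).2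
  have hK2 : ∀ {q : ℕ} (c : Ch (univ : Set ι) p) (σ : Sing X (q + 1))
      (h : ∀ i, Set.range σ ⊆ W (c.1 i)) (i : Fin (q + 2)),
      sface (q + 1) i.succ (K c (q + 1) σ) = K c q (sface q i σ) := by
    intro q c σ h i
    exact (hK c (hne c σ h)).2 q σ (hsub c σ h) i
  refine ⟨fun z => f ⟨(z.1.1, K z.1.1 q z.1.2), hK1 _ _ z.2⟩, ?_⟩
  funext z
  obtain ⟨⟨c, σ⟩, hz⟩ := z
  have hz' : ∀ i, Set.range σ ⊆ W (c.1 i) := hz
  have h2 := congrFun hf (⟨(c, K c (q + 1) σ), hK1 _ _ hz'⟩ : TT W p (q + 2))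
  rw [td2, altd_apply, Fin.sum_univ_succ] at h2
  simp only [Fin.val_zero, pow_zero, one_mul, Pi.zero_apply] at h2
  have e0 : tf2 W p (q + 1) 0 (⟨(c, K c (q + 1) σ), hK1 _ _ hz'⟩ : TT W p (q + 2))
      = ⟨(c, σ), hz⟩ := by
    apply Subtype.ext
    apply Prod.ext
    · rfl
    · exact hK0 _ _ hz'
  rw [e0] at h2
  rw [td2, altd_apply, eq_neg_of_add_eq_zero_left h2, ← Finset.sum_neg_distrib]
  refine Finset.sum_congr rfl fun i _ => ?_
  have e1 : tf2 W p (q + 1) i.succ (⟨(c, K c (q + 1) σ), hK1 _ _ hz'⟩ : TT W p (q + 2))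
      = ⟨(c, K c q (sface q i σ)), hK1 _ _ (fun j => (range_sface q i σ).trans (hz' j))⟩ := by
    apply Subtype.ext
    apply Prod.ext
    · rfl
    · exact hK2 _ _ hz' i
  rw [e1]
  simp only [tf2, Fin.val_succ, pow_succ]
  ring

/-- augmentation -/
def teps (k : Type) [CommRing k] (W : ι → Set X) (q : ℕ) :
    (Small (Set.range W) q → k) →ₗ[k] (TT W 0 q → k) where
  toFun f z := f ⟨z.1.2, W (z.1.1.1 0), ⟨_, rfl⟩, z.2 0⟩
  map_add' _ _ := rfl
  map_smul' _ _ := rfl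

theorem teps_td2 (W : ι → Set X) (q : ℕ) (f : Small (Set.range W) q → k) :
    td2 k W 0 q (teps k W q f) = teps k W (q + 1) (altd k (smface (𝒞 := Set.range W)) q f) := rfl

/-- constant chain -/
def cst (i : ι) : Ch (univ : Set ι) 0 :=
  ⟨fun _ => i, fun a b hab => absurd hab (by
    have := Subsingleton.elim (α := Fin 1) a b; rw [this]; exact lt_irrefl _), fun _ => trivial⟩

theorem teps_inj (W : ι → Set X) (q : ℕ) : Function.Injective (teps k W q) := by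
  intro f g hfg
  funext σ
  obtain ⟨σ, C, ⟨i, rfl⟩, hσ⟩ := σ
  exact congrFun hfg ⟨(cst i, σ), fun _ => hσ⟩

section Rows

variable [WellFoundedLT ι]

theorem exists_min_index (W : ι → Set X) {q : ℕ} (σ : Sing X q) : ∃ J : Option ι,
    ∀ i, Set.range σ ⊆ W i → ∃ j, J = some j ∧ Set.range σ ⊆ W j ∧ j ≤ i := by
  by_cases h : {i | Set.range σ ⊆ W i}.Nonempty
  · refine ⟨some (WellFounded.min (wellFounded_lt (α := ι)) _ h), fun i hi => ⟨_, rfl, ?_, ?_⟩⟩
    · exact WellFounded.min_mem (wellFounded_lt (α := ι)) _ h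
    · exact not_lt.mp (WellFounded.not_lt_min (wellFounded_lt (α := ι)) _ hi)
  · exact ⟨none, fun i hi => absurd ⟨i, hi⟩ h⟩

theorem teps_exact (W : ι → Set X) (q : ℕ) (f : TT W 0 q → k) (hf : td1 k W 0 q f = 0) :
    ∃ a, teps k W q a = f := by
  classical
  have key : ∀ (σ : Sing X q) (i j : ι) (hi : Set.range σ ⊆ W i) (hj : Set.range σ ⊆ W j),
      i < j → f ⟨(cst i, σ), fun _ => hi⟩ = f ⟨(cst j, σ), fun _ => hj⟩ := by
    intro σ i j hi hj hij
    have hlt : i < (cst j).1 0 := hij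
    have h2 := congrFun hf (⟨((cst j).consC i trivial hlt, σ), by
      intro l
      refine Fin.cases ?_ (fun l => ?_) l
      · exact hi
      · exact hj⟩ : TT W 1 q)
    rw [td1, altd_apply, Fin.sum_univ_two] at h2
    simp only [Fin.val_zero, pow_zero, one_mul, Fin.val_one, pow_one, neg_mul,
      Pi.zero_apply] at h2
    rw [← sub_eq_add_neg, sub_eq_zero] at h2
    symm
    refine Eq.trans ?_ (h2.trans ?_)
    · exact congrArg f (Subtype.ext (Prod.ext (consC_face_zero (cst j) _ trivial hlt).symm rfl))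
    · refine congrArg f (Subtype.ext (Prod.ext (Subtype.ext ?_) rfl))
      funext l
      have hl0 : l = 0 := Subsingleton.elim (α := Fin 1) l 0
      rw [hl0]
      simp [tf1, cface, Ch.consC, cst]
  have key2 : ∀ (σ : Sing X q) (i j : ι) (hi : Set.range σ ⊆ W i) (hj : Set.range σ ⊆ W j),
      f ⟨(cst i, σ), fun _ => hi⟩ = f ⟨(cst j, σ), fun _ => hj⟩ := by
    intro σ i j hi hj
    rcases lt_trichotomy i j with h | h | h
    · exact key σ i j hi hj h
    · subst h; rfl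
    · exact (key σ j i hj hi h).symm
  have hex : ∀ σ : Small (Set.range W) q, ∃ i : ι, Set.range σ.1 ⊆ W i := by
    rintro ⟨σ, C, ⟨i, rfl⟩, hσ⟩
    exact ⟨i, hσ⟩
  choose I hI using hex
  refine ⟨fun σ => f ⟨(cst (I σ), σ.1), fun _ => hI σ⟩, ?_⟩
  funext z
  obtain ⟨⟨c, σ⟩, hz⟩ := z
  have hz0 : Set.range σ ⊆ W (c.1 0) := hz 0
  have e : (⟨(c, σ), hz⟩ : TT W 0 q) = ⟨(cst (c.1 0), σ), fun _ => hz0⟩ := by
    apply Subtype.ext
    apply Prod.ext
    · apply Subtype.ext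
      funext l
      have hl0 : l = 0 := Subsingleton.elim (α := Fin 1) l 0
      rw [hl0]
      rfl
    · rfl
  rw [e]
  exact key2 σ _ _ _ _

theorem td1_exact (W : ι → Set X) (p q : ℕ) (f : TT W (p + 1) q → k)
    (hf : td1 k W (p + 1) q f = 0) : ∃ g, td1 k W p q g = f := by
  classical
  have hJ' : ∀ (σ : Sing X q), ∃ J : Option ι,
    ∀ i, Set.range σ ⊆ W i → ∃ j, J = some j ∧ Set.range σ ⊆ W j ∧ j ≤ i :=
    fun σ => exists_min_index W σ
  choose J hJ using hJ'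
  have hcons : ∀ (c : Ch (univ : Set ι) p) (σ : Sing X q) (hz : ∀ i, Set.range σ ⊆ W (c.1 i))
      (j : ι) (hj : Set.range σ ⊆ W j) (hlt : j < c.1 0),
      ∀ i, Set.range σ ⊆ W ((c.consC j trivial hlt).1 i) := by
    intro c σ hz j hj hlt i
    refine Fin.cases ?_ (fun l => ?_) i
    · exact hj
    · exact hz l
  let g : TT W p q → k := fun z =>
    if h : ∃ j, J z.1.2 = some j ∧ Set.range z.1.2 ⊆ W j ∧ j < z.1.1.1 0 then
      f ⟨(z.1.1.consC h.choose trivial h.choose_spec.2.2, z.1.2),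
        hcons _ _ z.2 _ h.choose_spec.2.1 h.choose_spec.2.2⟩ else 0
  have gpos : ∀ (z : TT W p q) (j : ι) (h1 : J z.1.2 = some j) (h2 : Set.range z.1.2 ⊆ W j)
      (h3 : j < z.1.1.1 0), g z = f ⟨(z.1.1.consC j trivial h3, z.1.2),
        hcons _ _ z.2 _ h2 h3⟩ := by
    intro z j h1 h2 h3
    have h : ∃ j, J z.1.2 = some j ∧ Set.range z.1.2 ⊆ W j ∧ j < z.1.1.1 0 := ⟨j, h1, h2, h3⟩
    have hc : h.choose = j :=
      Option.some_injective _ (h.choose_spec.1.symm.trans h1)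
    change (if h : ∃ j, J z.1.2 = some j ∧ Set.range z.1.2 ⊆ W j ∧ j < z.1.1.1 0 then _ else _) = _
    rw [dif_pos h]
    congr 1
    apply Subtype.ext
    apply Prod.ext
    · apply Subtype.ext
      change (Fin.cons _ _ : Fin (p + 2) → ι) = Fin.cons _ _
      rw [hc]
    · rfl
  have gneg : ∀ (z : TT W p q) (j : ι) (h1 : J z.1.2 = some j) (h : ¬ (j < z.1.1.1 0)),
      g z = 0 := by
    intro z j h1 h
    apply dif_neg
    rintro ⟨j', h1', h2', h3'⟩
    rw [h1] at h1'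
    exact h ((Option.some_injective _ h1') ▸ h3')
  refine ⟨g, ?_⟩
  funext z
  obtain ⟨⟨c, σ⟩, hz⟩ := z
  have hz' : ∀ i, Set.range σ ⊆ W (c.1 i) := hz
  obtain ⟨j, hJ1, hJ2, hJ3⟩ := hJ σ _ (hz' 0)
  rw [td1, altd_apply]
  rcases eq_or_lt_of_le hJ3 with heq | hlt
  · rw [Fin.sum_univ_succ]
    have hlt1 : j < (cface p 0 c).1 0 := by
      rw [heq]
      simp only [cface, Function.comp_apply]
      exact c.2.1 (by simp [Fin.succAbove])
    have hs : ∀ i : Fin (p + 1), (cface p i.succ c).1 0 = c.1 0 := by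
      intro i
      simp [cface]
    have e : ∑ i : Fin (p + 1), (-1 : k) ^ ((i.succ : Fin (p + 2)) : ℕ) *
        g (tf1 W q p i.succ ⟨(c, σ), hz⟩) = 0 := by
      apply Finset.sum_eq_zero
      intro i _
      rw [gneg _ j hJ1, mul_zero]
      change ¬ (j < (cface p i.succ c).1 0)
      rw [hs i, heq]; exact lt_irrefl _
    rw [e, gpos (tf1 W q p 0 ⟨(c, σ), hz⟩) j hJ1 hJ2 hlt1]
    simp only [Fin.val_zero, pow_zero, one_mul, add_zero]
    congr 1
    apply Subtype.ext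
    apply Prod.ext
    · apply Subtype.ext
      funext x
      refine Fin.cases ?_ (fun x => ?_) x
      · simp [Ch.consC, heq, tf1]
      · simp [Ch.consC, cface, tf1]
    · rfl
  · have hlti : ∀ i : Fin (p + 2), j < (cface p i c).1 0 := by
      intro i
      refine lt_of_lt_of_le hlt ?_
      exact c.2.1.monotone (Fin.zero_le _)
    have hcc : ∀ i, Set.range σ ⊆ W ((c.consC j trivial hlt).1 i) := by
      intro i
      refine Fin.cases ?_ (fun l => ?_) i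
      · exact hJ2
      · exact hz' l
    have h2 := congrFun hf (⟨(c.consC j trivial hlt, σ), hcc⟩ : TT W (p + 2) q)
    rw [td1, altd_apply, Fin.sum_univ_succ] at h2
    simp only [Fin.val_zero, pow_zero, one_mul, Pi.zero_apply] at h2
    have e0 : tf1 W q (p + 1) 0 (⟨(c.consC j trivial hlt, σ), hcc⟩ : TT W (p + 2) q)
        = ⟨(c, σ), hz⟩ := by
      apply Subtype.ext
      apply Prod.ext
      · exact consC_face_zero c _ trivial hlt
      · rfl
    rw [e0] at h2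
    rw [eq_neg_of_add_eq_zero_left h2, ← Finset.sum_neg_distrib]
    refine Finset.sum_congr rfl fun i _ => ?_
    rw [gpos (tf1 W q p i ⟨(c, σ), hz⟩) j hJ1 hJ2 (hlti i)]
    have e1 : tf1 W q (p + 1) i.succ (⟨(c.consC j trivial hlt, σ), hcc⟩ : TT W (p + 2) q)
        = ⟨((cface p i c).consC j trivial (hlti i), σ),
            hcons _ _ (tf1 W q p i ⟨(c, σ), hz⟩).2 _ hJ2 (hlti i)⟩ := by
      apply Subtype.ext
      apply Prod.ext
      · exact consC_face_succ c _ trivial hlt i (hlti i)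
      · rfl
    rw [e1]
    simp only [tf1, Fin.val_succ, pow_succ]
    ring

end Rows

end Cover

end

end Pool.Agent.Q145.Nag
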