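import Pool.Agent.Q145.Nag.B1

/-! Vanishing of singular cohomology above the order of a cover. -/

set_option autoImplicit false

namespace Pool.Agent.Q145.Nag

open Pool.Agent.Helper381 Set Finsupp

noncomputable section

section SmallInj

variable {k : Type} [CommRing k] {X : Type} [TopologicalSpace X] (𝒞 : Set (Set X))

/-- a cocycle which is a coboundary on small simplices is a coboundary -/
theorem small_inj (hopen : ∀ C ∈ 𝒞, IsOpen C) (hcov : ∀ x : X, ∃ C ∈ 𝒞, x ∈ C) (n : ℕ)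
    (f : Sing X (n + 1) → k) (hf : altd k (sface (X := X)) (n + 1) f = 0)
    (h : Small 𝒞 n → k)
    (hfg' : ∀ σ : Small 𝒞 (n + 1), f σ.1 = altd k (smface (𝒞 := 𝒞)) n h σ) :
    ∃ g, altd k (sface (X := X)) n g = f := by
  classical
  refine ⟨fun σ => evc (extz 𝒞 h) (rho 𝒞 n (single σ 1)) + evc f (DD 𝒞 n (single σ 1)), ?_⟩
  funext σ
  rw [altd_eq_ev]
  have h1 : Finsupp.linearCombination ℤ
      (fun σ => evc (extz 𝒞 h) (rho 𝒞 n (single σ 1)) + evc f (DD 𝒞 n (single σ 1))) =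
      (evc (extz 𝒞 h)).comp (rho 𝒞 n) + (evc f).comp (DD 𝒞 n) := by
    apply Finsupp.lhom_ext'
    intro σ
    apply LinearMap.ext_ring
    simp only [LinearMap.comp_apply, lsingle_apply, linearCombination_single, one_smul,
      LinearMap.add_apply]
  rw [h1, LinearMap.add_apply, LinearMap.comp_apply, LinearMap.comp_apply]
  -- compute f σ
  have h2 : f σ = evc f (rho 𝒞 (n + 1) (single σ 1)) +
      evc f (sbd X (n + 1) (DD 𝒞 (n + 1) (single σ 1))) +
      evc f (DD 𝒞 n (sbd X n (single σ 1))) := by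
    rw [rho_succ, map_sub, map_sub, evc_single]
    ring
  rw [h2]
  have h3 : evc f (sbd X (n + 1) (DD 𝒞 (n + 1) (single σ 1))) = 0 := by
    rw [← ev_altd, hf]
    simp
  have h4 : evc f (rho 𝒞 (n + 1) (single σ 1)) =
      evc (extz 𝒞 h) (rho 𝒞 n (sbd X n (single σ 1))) := by
    rw [← sbd_rho, ← ev_altd]
    apply evc_congr (smallSet 𝒞 (n + 1)) _ _ _ _ (rho_small 𝒞 hopen hcov (n + 1) _)
    intro τ hτ
    rw [extz_altd 𝒞 h τ hτ]
    exact hfg' ⟨τ, hτ⟩
  rw [h3, h4, add_zero]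

end SmallInj

section Vanish

variable {k : Type} [CommRing k] {X : Type} [TopologicalSpace X] [Nonempty X]
  {ι : Type} [LinearOrder ι] [WellFoundedLT ι]

/-- restriction to a smaller family -/
def tres (k : Type) [CommRing k] (W V : ι → Set X) (hVW : ∀ i, V i ⊆ W i) (p q : ℕ) :
    (TT W p q → k) →ₗ[k] (TT V p q → k) where
  toFun f z := f ⟨z.1, fun i => (z.2 i).trans (hVW _)⟩
  map_add' _ _ := rfl
  map_smul' _ _ := rfl

/-- Cohomology vanishes above the order of a cover `V` subordinate to a good family `W`. -/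
theorem vanish (W V : ι → Set X) (hVW : ∀ i, V i ⊆ W i) (hopen : ∀ i, IsOpen (V i))
    (hcov : ∀ x : X, ∃ i, x ∈ V i)
    (hcone : ∀ p (c : Ch (univ : Set ι) p), (⋂ i, W (c.1 i)).Nonempty → ConeData (⋂ i, W (c.1 i)))
    (n : ℕ) (hord : ∀ p, n ≤ p → ∀ c : Ch (univ : Set ι) p, ¬ (⋂ i, V (c.1 i)).Nonempty)
    (q : ℕ) (hq : n ≤ q + 1) (f : Sing X (q + 1) → k)
    (hf : altd k (sface (X := X)) (q + 1) f = 0) : ∃ g, altd k (sface (X := X)) q g = f := by
  -- the element of the double complex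
  let u : TT W 0 (q + 1) → k := fun z => f z.1.2
  have hu2 : td2 k W 0 (q + 1) u = 0 := by
    funext z
    exact congrFun hf z.1.2
  have hu1 : td1 k W 0 (q + 1) u = 0 := by
    funext z
    rw [td1, altd_apply, Fin.sum_univ_two]
    simp [tf1, u]
  obtain ⟨w, hw⟩ := stair_end (td1 k W) (td2 k W) (td1 k V) (td2 k V) (teps k V)
    (tres k W V hVW) (fun _ _ _ => rfl) (fun _ _ _ => rfl) (td11 W) (td12 W) (td22 V) (td12 V)
    (td2_exact W hcone) (td1_exact V) (teps_exact V) n (by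
      intro p hp x
      funext z
      exfalso
      apply hord p hp z.1.1
      obtain ⟨y⟩ : Nonempty (stdSimplex ℝ (Fin (0 + 1))) := inferInstance
      exact ⟨z.1.2 y, Set.mem_iInter.mpr fun i => z.2 i ⟨y, rfl⟩⟩) q hq u hu1 hu2
  rw [teps_td2] at hw
  have hw2 : altd k (smface (𝒞 := Set.range V)) q w = fun σ => f σ.1 := by
    apply teps_inj V
    rw [hw]
    rfl
  apply small_inj (Set.range V) (by rintro _ ⟨i, rfl⟩; exact hopen i)
    (fun x => by
      obtain ⟨i, hi⟩ := hcov x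
      exact ⟨V i, ⟨i, rfl⟩, hi⟩) q f hf w
  intro σ
  exact (congrFun hw2 σ).symm

theorem singCoh_subsingleton (q : ℕ)
    (h : ∀ f : Sing X (q + 1) → k, altd k (sface (X := X)) (q + 1) f = 0 →
      ∃ g, altd k (sface (X := X)) q g = f) : Subsingleton (SingCoh k X (q + 1)) := by
  constructor
  intro a b
  obtain ⟨⟨x, hx⟩, rfl⟩ := Submodule.Quotient.mk_surjective _ a
  obtain ⟨⟨y, hy⟩, rfl⟩ := Submodule.Quotient.mk_surjective _ b
  rw [Submodule.Quotient.eq]
  change x - y ∈ LinearMap.range (altd k (sface (X := X)) q)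
  obtain ⟨g, hg⟩ := h (x - y) (by
    rw [map_sub, LinearMap.mem_ker.mp hx, LinearMap.mem_ker.mp hy, sub_self])
  exact ⟨g, hg⟩

end Vanish

end

end Pool.Agent.Q145.Nag
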