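import Mathlib

/-! Covers of small order of compact metric spaces with Lipschitz parametrizations. -/

set_option autoImplicit false

namespace Pool.Agent.Q145.Nag

open Metric Set Filter Topology
open scoped NNReal ENNReal

noncomputable section

variable {M E : Type} [MetricSpace M] [CompactSpace M] [NormedAddCommGroup E] [NormedSpace ℝ E]
  [FiniteDimensional ℝ E]

/-- local Lipschitz parametrizations -/
def Par (M E : Type) [MetricSpace M] [NormedAddCommGroup E] : Prop :=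
  ∀ p : M, ∃ (ψ : E → M) (s : Set E) (L : ℝ≥0), LipschitzOnWith L ψ s ∧ ψ '' s ∈ 𝓝 p

theorem cone_dim (hpar : Par M E) {κ : Type} [Fintype κ] (f : M → κ → ℝ) (K : ℝ≥0)
    (hf : LipschitzWith K f) :
    dimH {v : κ → ℝ | ∃ (t : ℝ) (y : M), v = t • f y} ≤ (Module.finrank ℝ E + 1 : ℕ) := by
  choose ψ s L hL hnh using hpar
  obtain ⟨T, -, hT⟩ := (isCompact_univ (X := M)).elim_nhds_subcover (fun p => ψ p '' s p)
    (fun p _ => hnh p)
  obtain ⟨B, hB⟩ : ∃ B : ℝ, ∀ y, ‖f y‖ ≤ B := by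
    have hc : Continuous fun y => ‖f y‖ := hf.continuous.norm
    obtain ⟨B, hB⟩ := (isCompact_univ (X := M)).bddAbove_image hc.continuousOn
    exact ⟨B, fun y => hB ⟨y, trivial, rfl⟩⟩
  have hB' : ∀ y, ‖f y‖ ≤ |B| := fun y => (hB y).trans (le_abs_self B)
  have hsub : {v : κ → ℝ | ∃ (t : ℝ) (y : M), v = t • f y} ⊆
      ⋃ p ∈ (T : Set M), ⋃ n : ℕ, (fun z : ℝ × E => z.1 • f (ψ p z.2)) ''
        (Icc (-(n : ℝ)) n ×ˢ s p) := by
    rintro v ⟨t, y, rfl⟩
    have hy := hT (mem_univ y)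
    simp only [mem_iUnion] at hy
    obtain ⟨p, hp, x, hx, rfl⟩ := hy
    obtain ⟨n, hn⟩ := exists_nat_ge |t|
    simp only [mem_iUnion]
    exact ⟨p, hp, n, (t, x), ⟨abs_le.mp hn, hx⟩, rfl⟩
  refine (dimH_mono hsub).trans ?_
  rw [dimH_bUnion T.countable_toSet]
  refine iSup₂_le fun p _ => ?_
  rw [dimH_iUnion]
  refine iSup_le fun n => ?_
  have hLip : LipschitzOnWith ((n : ℝ≥0) * (K * L p) + |B|.toNNReal)
      (fun z : ℝ × E => z.1 • f (ψ p z.2)) (Icc (-(n : ℝ)) n ×ˢ s p) := by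
    apply LipschitzOnWith.of_dist_le_mul
    rintro ⟨t, x⟩ ⟨ht, hx⟩ ⟨t', x'⟩ ⟨ht', hx'⟩
    have h1 : dist (f (ψ p x)) (f (ψ p x')) ≤ K * (L p * dist x x') := by
      refine (hf.dist_le_mul _ _).trans ?_
      gcongr
      exact (hL p).dist_le_mul x hx x' hx'
    have h2 : dist (t • f (ψ p x)) (t' • f (ψ p x')) ≤
        |t| * dist (f (ψ p x)) (f (ψ p x')) + |t - t'| * ‖f (ψ p x')‖ := by
      rw [dist_eq_norm, dist_eq_norm]
      have : t • f (ψ p x) - t' • f (ψ p x') =
          t • (f (ψ p x) - f (ψ p x')) + (t - t') • f (ψ p x') := by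
        rw [smul_sub, sub_smul]; abel
      rw [this]
      refine (norm_add_le _ _).trans ?_
      rw [norm_smul, norm_smul, Real.norm_eq_abs, Real.norm_eq_abs]
    have h3 : dist x x' ≤ dist ((t, x) : ℝ × E) (t', x') := le_max_right _ _
    have h4 : |t - t'| ≤ dist ((t, x) : ℝ × E) (t', x') := le_max_left _ _
    have h5 : |t| ≤ n := abs_le.mpr ht
    have h6 := hB' (ψ p x')
    set D := dist ((t, x) : ℝ × E) (t', x') with hD
    have hD0 : 0 ≤ D := dist_nonneg
    refine h2.trans ?_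
    push_cast
    rw [Real.coe_toNNReal _ (abs_nonneg B)]
    have h7 : dist (f (ψ p x)) (f (ψ p x')) ≤ K * (L p * D) := h1.trans (by gcongr)
    calc |t| * dist (f (ψ p x)) (f (ψ p x')) + |t - t'| * ‖f (ψ p x')‖
        ≤ n * (K * (L p * D)) + D * |B| := by gcongr
      _ = _ := by ring
  refine (hLip.dimH_image_le).trans ((dimH_mono (subset_univ _)).trans ?_)
  rw [Real.dimH_univ_eq_finrank, Module.finrank_prod, Module.finrank_self, add_comm]

/-- being Lipschitz -/
def Lip (g : M → ℝ) : Prop := ∃ K : ℝ≥0, LipschitzWith K g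

theorem Lip.sub {f g : M → ℝ} (hf : Lip f) (hg : Lip g) : Lip fun x => f x - g x := by
  obtain ⟨K, hK⟩ := hf
  obtain ⟨L, hL⟩ := hg
  exact ⟨K + L, hK.sub hL⟩

theorem Lip.min {f g : M → ℝ} (hf : Lip f) (hg : Lip g) : Lip fun x => min (f x) (g x) := by
  obtain ⟨K, hK⟩ := hf
  obtain ⟨L, hL⟩ := hg
  exact ⟨Max.max K L, hK.min hL⟩

theorem Lip.const_mul {f : M → ℝ} (hf : Lip f) (c : ℝ) : Lip fun x => c * f x := by
  obtain ⟨K, hK⟩ := hf
  refine ⟨|c|.toNNReal * K, LipschitzWith.of_dist_le_mul fun x y => ?_⟩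
  rw [NNReal.coe_mul, Real.coe_toNNReal _ (abs_nonneg c), Real.dist_eq, ← mul_sub, abs_mul,
    mul_assoc]
  gcongr
  rw [← Real.dist_eq]
  exact hK.dist_le_mul x y

theorem Lip.inf' {ι : Type} {S : Finset ι} (hS : S.Nonempty) (f : ι → M → ℝ)
    (hf : ∀ i ∈ S, Lip (f i)) : Lip fun x => S.inf' hS fun i => f i x := by
  have h := Finset.inf'_induction hS f (p := Lip) (fun a ha b hb => ha.min hb) hf
  have e : S.inf' hS f = fun x => S.inf' hS fun i => f i x := by
    funext x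
    rw [Finset.inf'_apply]
  rwa [e] at h

theorem lip_pi {κ : Type} [Fintype κ] (f : κ → M → ℝ) (hf : ∀ i, Lip (f i)) :
    ∃ K : ℝ≥0, LipschitzWith K (fun y i => f i y) := by
  classical
  choose K hK using hf
  refine ⟨∑ i, K i, LipschitzWith.of_dist_le_mul fun x y => ?_⟩
  rw [dist_pi_le_iff (by positivity)]
  intro i
  refine ((hK i).dist_le_mul x y).trans ?_
  gcongr
  exact Finset.single_le_sum (f := K) (fun _ _ => zero_le) (Finset.mem_univ i)

/-- one reduction step -/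
theorem reduce_step (hpar : Par M E) {ι : Type} (S : Finset ι)
    (hS : Module.finrank ℝ E + 2 ≤ S.card) (f : ι → M → ℝ) (hf : ∀ i, Lip (f i))
    (hf0 : ∀ i y, 0 ≤ f i y) (hcov : ∀ y, ∃ i, 0 < f i y) :
    ∃ f' : ι → M → ℝ, (∀ i, Lip (f' i)) ∧ (∀ i y, 0 ≤ f' i y) ∧ (∀ i y, f' i y ≤ f i y) ∧
      (∀ y, ∃ i, 0 < f' i y) ∧ (∀ y, ∃ i ∈ S, f' i y = 0) := by
  classical
  have hSne : S.Nonempty := by
    rw [← Finset.card_pos]; omega
  obtain ⟨K, hK⟩ := lip_pi (fun i : S => f i.1) (fun i => hf i.1)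
  have hdim := cone_dim hpar (fun y (i : S) => f i.1 y) K hK
  have hlt : dimH {v : S → ℝ | ∃ (t : ℝ) (y : M), v = t • (fun i : S => f i.1 y)} <
      (Module.finrank ℝ (S → ℝ) : ℝ≥0∞) := by
    refine lt_of_le_of_lt hdim ?_
    rw [Module.finrank_fintype_fun_eq_card, Fintype.card_coe]
    exact_mod_cast (by omega : Module.finrank ℝ E + 1 < S.card)
  have hdense := dense_compl_of_dimH_lt_finrank hlt
  obtain ⟨v, hv0, hvC⟩ := hdense.inter_open_nonempty (Set.pi univ fun _ : S => Ioi (0 : ℝ))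
    (isOpen_set_pi finite_univ fun _ _ => isOpen_Ioi) ⟨fun _ => 1, fun _ _ => by simp⟩
  have hv : ∀ i : S, 0 < v i := fun i => hv0 i trivial
  let w : ι → ℝ := fun i => if h : i ∈ S then v ⟨i, h⟩ else 1
  have hw : ∀ i, 0 < w i := by
    intro i
    by_cases h : i ∈ S
    · simp only [w, dif_pos h]; exact hv _
    · simp only [w, dif_neg h]; exact one_pos
  let m : M → ℝ := fun y => S.inf' hSne fun i => (w i)⁻¹ * f i y
  have hm : Lip m := Lip.inf' hSne (fun i y => (w i)⁻¹ * f i y) fun i _ => (hf i).const_mul _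
  have hm0 : ∀ y, 0 ≤ m y := by
    intro y
    apply Finset.le_inf'
    intro i _
    exact mul_nonneg (inv_nonneg.mpr (hw i).le) (hf0 i y)
  have hmle : ∀ y, ∀ i ∈ S, w i * m y ≤ f i y := by
    intro y i hi
    have h1 : m y ≤ (w i)⁻¹ * f i y := Finset.inf'_le (fun i => (w i)⁻¹ * f i y) hi
    calc w i * m y ≤ w i * ((w i)⁻¹ * f i y) := by
          apply mul_le_mul_of_nonneg_left h1 (hw i).le
      _ = f i y := by rw [← mul_assoc, mul_inv_cancel₀ (hw i).ne', one_mul]
  have hmeq : ∀ y, ∃ i ∈ S, w i * m y = f i y := by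
    intro y
    obtain ⟨i, hi, h⟩ := Finset.exists_mem_eq_inf' hSne fun i => (w i)⁻¹ * f i y
    refine ⟨i, hi, ?_⟩
    change w i * (S.inf' hSne fun i => (w i)⁻¹ * f i y) = f i y
    rw [h, ← mul_assoc, mul_inv_cancel₀ (hw i).ne', one_mul]
  refine ⟨fun i y => if i ∈ S then f i y - w i * m y else f i y, ?_, ?_, ?_, ?_, ?_⟩
  · intro i
    by_cases h : i ∈ S
    · simp only [if_pos h]
      exact (hf i).sub (hm.const_mul _)
    · simp only [if_neg h]
      exact hf i
  · intro i y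
    by_cases h : i ∈ S
    · simp only [if_pos h]
      linarith [hmle y i h]
    · simp only [if_neg h]
      exact hf0 i y
  · intro i y
    by_cases h : i ∈ S
    · simp only [if_pos h]
      have := mul_nonneg (hw i).le (hm0 y)
      linarith
    · simp only [if_neg h]
      exact le_rfl
  · intro y
    obtain ⟨u, hu⟩ := hcov y
    by_cases hex : ∃ i ∈ S, 0 < f i y - w i * m y
    · obtain ⟨i, hi, h⟩ := hex
      exact ⟨i, by simp only [if_pos hi]; exact h⟩
    · push Not at hex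
      by_cases huS : u ∈ S
      · exfalso
        have heq : ∀ i ∈ S, f i y = w i * m y := fun i hi =>
          le_antisymm (by linarith [hex i hi]) (hmle y i hi)
        have hmpos : 0 < m y := by
          rcases (hm0 y).lt_or_eq with h | h
          · exact h
          · rw [heq u huS, ← h, mul_zero] at hu
            exact absurd hu (lt_irrefl _)
        apply hvC
        refine ⟨(m y)⁻¹, y, ?_⟩
        funext i
        have h1 : w i.1 = v i := by simp only [w, dif_pos i.2]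
        rw [Pi.smul_apply, smul_eq_mul, heq i.1 i.2, h1]
        field_simp
      · exact ⟨u, by simp only [if_neg huS]; exact hu⟩
  · intro y
    obtain ⟨i, hi, h⟩ := hmeq y
    exact ⟨i, hi, by simp only [if_pos hi]; linarith⟩

theorem reduce_all (hpar : Par M E) {ι : Type} (𝒮 : Finset (Finset ι))
    (hS : ∀ S ∈ 𝒮, Module.finrank ℝ E + 2 ≤ S.card) (f : ι → M → ℝ) (hf : ∀ i, Lip (f i))
    (hf0 : ∀ i y, 0 ≤ f i y) (hcov : ∀ y, ∃ i, 0 < f i y) :
    ∃ f' : ι → M → ℝ, (∀ i, Lip (f' i)) ∧ (∀ i y, 0 ≤ f' i y) ∧ (∀ i y, f' i y ≤ f i y) ∧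
      (∀ y, ∃ i, 0 < f' i y) ∧ (∀ S ∈ 𝒮, ∀ y, ∃ i ∈ S, f' i y = 0) := by
  classical
  induction 𝒮 using Finset.induction_on with
  | empty => exact ⟨f, hf, hf0, fun _ _ => le_rfl, hcov, by simp⟩
  | insert S 𝒮 _ ih =>
    obtain ⟨g, g1, g2, g3, g4, g5⟩ := ih fun T hT => hS T (Finset.mem_insert_of_mem hT)
    obtain ⟨h, h1, h2, h3, h4, h5⟩ := reduce_step hpar S (hS S (Finset.mem_insert_self _ _)) g g1
      g2 g4
    refine ⟨h, h1, h2, fun i y => (h3 i y).trans (g3 i y), h4, ?_⟩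
    intro T hT y
    rcases Finset.mem_insert.mp hT with rfl | hT
    · exact h5 y
    · obtain ⟨i, hi, hz⟩ := g5 T hT y
      exact ⟨i, hi, le_antisymm ((h3 i y).trans hz.le) (h2 i y)⟩

/-- a compact space with Lipschitz parametrizations by `E` has, for every finite cover by balls, a
shrinking of order at most `dim E + 1` -/
theorem exists_shrink (hpar : Par M E) {ι : Type} [Fintype ι] (c : ι → M) (ρ : ℝ)
    (hcov : ∀ y, ∃ i, dist (c i) y < ρ) :
    ∃ V : ι → Set M, (∀ i, IsOpen (V i)) ∧ (∀ i, V i ⊆ {y | dist (c i) y < ρ}) ∧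
      (∀ y, ∃ i, y ∈ V i) ∧
      (∀ S : Finset ι, Module.finrank ℝ E + 2 ≤ S.card → ∀ y, ∃ i ∈ S, y ∉ V i) := by
  classical
  obtain ⟨f, h1, h2, h3, h4, h5⟩ := reduce_all hpar
    ((Finset.univ : Finset (Finset ι)).filter fun S => Module.finrank ℝ E + 2 ≤ S.card)
    (fun S hS => (Finset.mem_filter.mp hS).2) (fun i y => max (ρ - dist (c i) y) 0) (by
      intro i
      have ha : LipschitzWith 1 fun y => dist (c i) y := LipschitzWith.dist_right (c i)
      have hb : LipschitzWith (0 + 1) fun y => ρ - dist (c i) y :=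
        (LipschitzWith.const ρ).sub ha
      exact ⟨_, hb.max (LipschitzWith.const 0)⟩)
    (fun i y => le_max_right _ _) (fun y => by
      obtain ⟨i, hi⟩ := hcov y
      exact ⟨i, lt_max_of_lt_left (by linarith)⟩)
  refine ⟨fun i => {y | 0 < f i y}, ?_, ?_, h4, ?_⟩
  · intro i
    obtain ⟨K, hK⟩ := h1 i
    exact isOpen_lt continuous_const hK.continuous
  · intro i y hy
    have hy' : 0 < f i y := hy
    have h6 := lt_of_lt_of_le hy' (h3 i y)
    rcases lt_max_iff.mp h6 with h | h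
    · change dist (c i) y < ρ
      linarith
    · exact absurd h (lt_irrefl _)
  · intro S hS y
    obtain ⟨i, hi, hz⟩ := h5 S (Finset.mem_filter.mpr ⟨Finset.mem_univ _, hS⟩) y
    exact ⟨i, hi, by
      intro h
      have h' : 0 < f i y := h
      rw [hz] at h'
      exact lt_irrefl _ h'⟩

end

end Pool.Agent.Q145.Nag
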