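import Pool.Agent.Q145.Nag.B2
import Pool.Agent.Q145.Nag.B3
import Pool.Agent.Helper381.Riem3
import Pool.Agent.Helper381.Main

/-! Vanishing of the singular cohomology of a compact Riemannian manifold above its dimension. -/

set_option autoImplicit false

namespace Pool.Agent.Q145.Nag

open Pool.Agent.Helper381 Set Metric Module Filter Topology
open scoped NNReal

noncomputable section

theorem par_of_loc {M E : Type} [MetricSpace M] [NormedAddCommGroup E] [NormedSpace ℝ E]
    (h : ∀ p : M, ∃ c : Loc M E, c.ψ c.x₀ = p) : Par M E := by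
  intro p
  obtain ⟨c, rfl⟩ := h p
  refine ⟨c.ψ, ball c.x₀ c.r₁, c.L.toNNReal, ?_, ?_⟩
  · apply LipschitzOnWith.of_dist_le_mul
    intro x hx y hy
    have h1 := c.dist_le hx hy
    have h2 := c.one_le_L
    rw [Real.coe_toNNReal _ (by linarith), dist_comm x y, dist_eq_norm y x]
    exact h1
  · exact (c.isOpen_image _ c.ball_sub isOpen_ball).mem_nhds
      ⟨c.x₀, mem_ball_self c.r₁pos, rfl⟩

variable {M E : Type} [MetricSpace M] [CompactSpace M] [Nonempty M] [NormedAddCommGroup E]
  [NormedSpace ℝ E] [FiniteDimensional ℝ E] {R : ℝ}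

theorem coh_vanish (G : Geo M E R) (hpar : Par M E) (k : Type) [CommRing k] (q : ℕ)
    (hq : finrank ℝ E ≤ q) : Subsingleton (SingCoh k M (q + 1)) := by
  classical
  obtain ⟨F, hF, _⟩ := exists_net (M := M) [] (by simp) (by simp) (R / 4)
    (by linarith [G.Rpos])
  have hρR : 4 * (R / 4) ≤ R := by linarith
  set ρ := R / 4 with hρ
  let e : Fin F.card ≃ F := F.equivFin.symm
  have hcov : ∀ y : M, ∃ i, dist ((e i : F) : M) y < ρ := by
    intro y
    obtain ⟨p, hp, h⟩ := hF y
    exact ⟨e.symm ⟨p, hp⟩, by rw [Equiv.apply_symm_apply]; exact h⟩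
  obtain ⟨V, hV1, hV2, hV3, hV4⟩ := exists_shrink hpar (fun i => ((e i : F) : M)) ρ hcov
  apply singCoh_subsingleton
  intro f hf
  apply vanish (fun i => {y | dist ((e i : F) : M) y < ρ}) V hV2 hV1 hV3 _ (finrank ℝ E + 1) _ q
    (by omega) f hf
  · intro p c hne
    have hC : (⋂ i, {y | dist ((e (c.1 i) : F) : M) y < ρ}) ∈ Fam F ρ := by
      refine ⟨hne, Finset.univ.image fun i => ((e (c.1 i) : F) : M), ?_, ?_, ?_⟩
      · intro x hx
        obtain ⟨i, _, rfl⟩ := Finset.mem_image.mp hx
        exact (e (c.1 i)).2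
      · exact ⟨_, Finset.mem_image_of_mem _ (Finset.mem_univ 0)⟩
      · ext y
        simp
    exact G.fam_cone hρR hC
  · rintro p hp c ⟨y, hy⟩
    rw [mem_iInter] at hy
    obtain ⟨u, hu, hyu⟩ := hV4 (Finset.univ.image c.1) (by
      rw [Finset.card_image_of_injective _ c.2.1.injective, Finset.card_univ, Fintype.card_fin]
      omega) y
    obtain ⟨i, _, rfl⟩ := Finset.mem_image.mp hu
    exact hyu (hy i)

end

end Pool.Agent.Q145.Nag
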