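import Pool.Agent.Helper381.Loc

/-! Midpoints in charts. -/

set_option autoImplicit false

namespace Pool.Agent.Q145.Nag

open Pool.Agent.Helper381 Set Metric

noncomputable section

variable {M E : Type} [MetricSpace M] [NormedAddCommGroup E] [NormedSpace ℝ E] (c : Loc M E)

/-- constant in the midpoint estimate -/
def K1 : ℝ := (4 * c.C₃ * c.L ^ 6 + 2 * c.C * c.L ^ 6 + c.C₃) / c.lam

theorem K1_nonneg : 0 ≤ K1 c := by
  have h1 := c.C₃pos
  have h2 := c.Cpos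
  have h3 := c.lampos
  have h4 := c.one_le_L
  unfold K1
  positivity

theorem mid_est {x y m : E} (hx : x ∈ ball c.x₀ c.r₁) (hy : y ∈ ball c.x₀ c.r₁)
    (hm : m ∈ ball c.x₀ c.r₁) (h1 : dist (c.ψ x) (c.ψ m) = dist (c.ψ x) (c.ψ y) / 2)
    (h2 : dist (c.ψ m) (c.ψ y) = dist (c.ψ x) (c.ψ y) / 2) :
    ‖(m - x) - (y - m)‖ ^ 2 ≤ K1 c * ‖y - x‖ ^ 3 := by
  have hL := c.one_le_L
  have hC := c.Cpos
  have hC3 := c.C₃pos
  have hlam := c.lampos
  set N := ‖y - x‖ with hN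
  have hN0 : 0 ≤ N := norm_nonneg _
  set D := dist (c.ψ x) (c.ψ y) with hD
  have hD0 : 0 ≤ D := dist_nonneg
  have hDN : D ≤ c.L * N := c.dist_le hx hy
  have ha : ‖m - x‖ ≤ c.L ^ 2 * N := by
    have := c.norm_le hx hm
    rw [h1] at this
    nlinarith
  have hb : ‖y - m‖ ≤ c.L ^ 2 * N := by
    have := c.norm_le hm hy
    rw [h2] at this
    nlinarith
  have e1 : c.G x (m - x) (m - x) ≤ D ^ 2 / 4 + c.C₃ * (c.L ^ 2 * N) ^ 3 := by
    refine (c.le_dist_sq' hx hm).trans ?_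
    rw [h1]
    have : c.C₃ * ‖m - x‖ ^ 3 ≤ c.C₃ * (c.L ^ 2 * N) ^ 3 := by gcongr
    nlinarith
  have e2 : c.G m (y - m) (y - m) ≤ D ^ 2 / 4 + c.C₃ * (c.L ^ 2 * N) ^ 3 := by
    refine (c.le_dist_sq' hm hy).trans ?_
    rw [h2]
    have : c.C₃ * ‖y - m‖ ^ 3 ≤ c.C₃ * (c.L ^ 2 * N) ^ 3 := by gcongr
    nlinarith
  have e3 : c.G x (y - m) (y - m) ≤ c.G m (y - m) (y - m) +
      c.C * (c.L ^ 2 * N) * (c.L ^ 2 * N) * (c.L ^ 2 * N) := by
    have h3 := c.lip x (c.ball_sub hx) m (c.ball_sub hm) (y - m) (y - m)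
    have h4 : c.C * ‖x - m‖ * ‖y - m‖ * ‖y - m‖ ≤
        c.C * (c.L ^ 2 * N) * (c.L ^ 2 * N) * (c.L ^ 2 * N) := by
      rw [norm_sub_rev x m]
      gcongr
    linarith [(abs_le.mp h3).2]
  have e4 : D ^ 2 ≤ c.G x (y - x) (y - x) + c.C₃ * N ^ 3 := c.dist_sq_le' hx hy
  have hsym := c.symm x (c.ball_sub hx) (m - x) (y - m)
  have e5 : c.G x ((m - x) - (y - m)) ((m - x) - (y - m)) =
      2 * c.G x (m - x) (m - x) + 2 * c.G x (y - m) (y - m) - c.G x (y - x) (y - x) := by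
    have : y - x = (m - x) + (y - m) := by abel
    rw [this]
    simp only [map_sub (c.G x) (m - x) (y - m), map_add (c.G x) (m - x) (y - m),
      LinearMap.sub_apply, LinearMap.add_apply, map_sub (c.G x (m - x)) (m - x) (y - m),
      map_add (c.G x (m - x)) (m - x) (y - m), map_sub (c.G x (y - m)) (m - x) (y - m),
      map_add (c.G x (y - m)) (m - x) (y - m), hsym]
    ring
  have e6 := c.lower x (c.ball_sub hx) ((m - x) - (y - m))
  have e7 : c.lam * ‖(m - x) - (y - m)‖ ^ 2 ≤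
      (4 * c.C₃ * c.L ^ 6 + 2 * c.C * c.L ^ 6 + c.C₃) * N ^ 3 := by
    rw [e5] at e6
    have e8 : (c.L ^ 2 * N) ^ 3 = c.L ^ 6 * N ^ 3 := by ring
    have e9 : c.C * (c.L ^ 2 * N) * (c.L ^ 2 * N) * (c.L ^ 2 * N) = c.C * c.L ^ 6 * N ^ 3 := by
      ring
    rw [e8] at e1 e2
    rw [e9] at e3
    nlinarith
  unfold K1
  rw [div_mul_eq_mul_div, le_div_iff₀ hlam]
  linarith

/-- square root form of the midpoint estimate -/
theorem mid_est' {x y m : E} (hx : x ∈ ball c.x₀ c.r₁) (hy : y ∈ ball c.x₀ c.r₁)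
    (hm : m ∈ ball c.x₀ c.r₁) (h1 : dist (c.ψ x) (c.ψ m) = dist (c.ψ x) (c.ψ y) / 2)
    (h2 : dist (c.ψ m) (c.ψ y) = dist (c.ψ x) (c.ψ y) / 2) :
    ‖(2 : ℝ) • (m - x) - (y - x)‖ ≤ Real.sqrt (K1 c) * (‖y - x‖ * Real.sqrt ‖y - x‖) := by
  have h := mid_est c hx hy hm h1 h2
  have e : (2 : ℝ) • (m - x) - (y - x) = (m - x) - (y - m) := by
    rw [two_smul]; abel
  rw [e]
  have hN0 : 0 ≤ ‖y - x‖ := norm_nonneg _
  have hK := K1_nonneg c
  have h3 : (Real.sqrt (K1 c) * (‖y - x‖ * Real.sqrt ‖y - x‖)) ^ 2 = K1 c * ‖y - x‖ ^ 3 := by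
    rw [mul_pow, mul_pow, Real.sq_sqrt hK, Real.sq_sqrt hN0]
    ring
  rw [← h3] at h
  exact (pow_le_pow_iff_left₀ (norm_nonneg _) (by positivity) two_ne_zero).mp h

/-- iterated midpoints are close to the straight ones -/
theorem iter_est {x : E} (m : ℕ → E) (hx : x ∈ ball c.x₀ c.r₁)
    (hm : ∀ k, m k ∈ ball c.x₀ c.r₁)
    (h1 : ∀ k, dist (c.ψ x) (c.ψ (m (k + 1))) = dist (c.ψ x) (c.ψ (m k)) / 2)
    (h2 : ∀ k, dist (c.ψ (m (k + 1))) (c.ψ (m k)) = dist (c.ψ x) (c.ψ (m k)) / 2) (k : ℕ) :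
    ‖(2 : ℝ) ^ k • (m k - x) - (m 0 - x)‖ ≤
      Real.sqrt (K1 c) * c.L ^ 4 / (1 - Real.sqrt (1 / 2)) *
        (‖m 0 - x‖ * Real.sqrt ‖m 0 - x‖) := by
  have hL := c.one_le_L
  have hK := Real.sqrt_nonneg (K1 c)
  set θ := Real.sqrt (1 / 2) with hθ
  have hθ0 : 0 < θ := Real.sqrt_pos.mpr (by norm_num)
  have hθ1 : θ < 1 := by
    rw [hθ, Real.sqrt_lt' one_pos]; norm_num
  set N := ‖m 0 - x‖ with hN
  have hN0 : 0 ≤ N := norm_nonneg _
  have hd : ∀ k, dist (c.ψ x) (c.ψ (m k)) = dist (c.ψ x) (c.ψ (m 0)) * (1 / 2) ^ k := by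
    intro k
    induction k with
    | zero => simp
    | succ k ih => rw [h1, ih, pow_succ]; ring
  have hn : ∀ k, ‖m k - x‖ ≤ c.L ^ 2 * N * (1 / 2) ^ k := by
    intro k
    have e1 := c.norm_le hx (hm k)
    rw [hd] at e1
    have e2 := c.dist_le hx (hm 0)
    calc ‖m k - x‖ ≤ c.L * (dist (c.ψ x) (c.ψ (m 0)) * (1 / 2) ^ k) := e1
      _ ≤ c.L * ((c.L * N) * (1 / 2) ^ k) := by gcongr
      _ = _ := by ring
  have hs : ∀ k, Real.sqrt ‖m k - x‖ ≤ c.L * Real.sqrt N * θ ^ k := by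
    intro k
    have e1 : Real.sqrt (c.L ^ 2 * N * (1 / 2) ^ k) = c.L * Real.sqrt N * θ ^ k := by
      have e0 : (1 / 2 : ℝ) ^ k = (θ ^ k) ^ 2 := by
        rw [← pow_mul, mul_comm, pow_mul, hθ, Real.sq_sqrt (by norm_num)]
      rw [Real.sqrt_mul (by positivity), Real.sqrt_mul (by positivity), Real.sqrt_sq (by linarith),
        e0, Real.sqrt_sq (by positivity)]
    rw [← e1]
    exact Real.sqrt_le_sqrt (hn k)
  have key : ∀ k, ‖(2 : ℝ) ^ k • (m k - x) - (m 0 - x)‖ ≤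
      Real.sqrt (K1 c) * c.L ^ 4 * (N * Real.sqrt N) * ∑ j ∈ Finset.range k, θ ^ j := by
    intro k
    induction k with
    | zero => simp
    | succ k ih =>
      have e1 := mid_est' c hx (hm k) (hm (k + 1)) (h1 k) (h2 k)
      have e2 : (2 : ℝ) ^ (k + 1) • (m (k + 1) - x) - (m 0 - x) =
          (2 : ℝ) ^ k • ((2 : ℝ) • (m (k + 1) - x) - (m k - x)) +
            ((2 : ℝ) ^ k • (m k - x) - (m 0 - x)) := by
        rw [pow_succ]; module
      rw [e2, Finset.sum_range_succ]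
      refine (norm_add_le _ _).trans ?_
      rw [norm_smul, Real.norm_of_nonneg (by positivity)]
      have e3 : (2 : ℝ) ^ k * ‖(2 : ℝ) • (m (k + 1) - x) - (m k - x)‖ ≤
          Real.sqrt (K1 c) * c.L ^ 4 * (N * Real.sqrt N) * θ ^ k := by
        calc (2 : ℝ) ^ k * ‖(2 : ℝ) • (m (k + 1) - x) - (m k - x)‖
            ≤ (2 : ℝ) ^ k * (Real.sqrt (K1 c) * ((c.L ^ 2 * N * (1 / 2) ^ k) *
              (c.L * Real.sqrt N * θ ^ k))) := by
              refine mul_le_mul_of_nonneg_left (e1.trans ?_) (by positivity)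
              have := hn k
              have := hs k
              gcongr
          _ = Real.sqrt (K1 c) * c.L ^ 3 * (N * Real.sqrt N) * θ ^ k := by
              have : (2 : ℝ) ^ k * (1 / 2) ^ k = 1 := by
                rw [← mul_pow]; norm_num
              calc _ = ((2 : ℝ) ^ k * (1 / 2) ^ k) *
                    (Real.sqrt (K1 c) * c.L ^ 3 * (N * Real.sqrt N) * θ ^ k) := by ring
                _ = _ := by rw [this, one_mul]
          _ ≤ _ := by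
              have : c.L ^ 3 ≤ c.L ^ 4 := pow_le_pow_right₀ hL (by norm_num)
              gcongr
      linarith
  refine (key k).trans ?_
  have hgeo : ∑ j ∈ Finset.range k, θ ^ j ≤ 1 / (1 - θ) := by
    rw [le_div_iff₀ (by linarith)]
    have := geom_sum_mul_neg θ k
    rw [this]
    have : 0 < θ ^ k := by positivity
    linarith
  calc Real.sqrt (K1 c) * c.L ^ 4 * (N * Real.sqrt N) * ∑ j ∈ Finset.range k, θ ^ j
      ≤ Real.sqrt (K1 c) * c.L ^ 4 * (N * Real.sqrt N) * (1 / (1 - θ)) := by gcongr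
    _ = _ := by ring

end

end Pool.Agent.Q145.Nag
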