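import Pool.Agent.Q145.Nag.C1

/-! Isometries which fix a point with derivative the identity: closeness to the identity. -/

set_option autoImplicit false

namespace Pool.Agent.Q145.Nag

open Pool.Agent.Helper381 Set Metric Filter Topology

noncomputable section

variable {M E : Type} [MetricSpace M] [NormedAddCommGroup E] [NormedSpace ℝ E] (c : Loc M E)

/-- radius in the space -/
def τ1 : ℝ := min c.τ (c.r₁ / c.L)

theorem τ1pos : 0 < τ1 c := by
  have := c.one_le_L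
  exact lt_min c.τpos (div_pos c.r₁pos (by linarith))

/-- radius in the chart -/
def ρ1 : ℝ := τ1 c / c.L

theorem ρ1pos : 0 < ρ1 c := by
  have := c.one_le_L
  exact div_pos (τ1pos c) (by linarith)

theorem ρ1_le : ρ1 c ≤ c.r₁ := by
  have hL := c.one_le_L
  have h1 : τ1 c ≤ c.r₁ / c.L := min_le_right _ _
  have h2 : c.r₁ / c.L ≤ c.r₁ := div_le_self c.r₁pos.le hL
  unfold ρ1
  have h3 : τ1 c / c.L ≤ τ1 c := div_le_self (τ1pos c).le hL
  linarith

/-- points near the centre are seen in the small chart -/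
theorem near {y : M} (hy : dist (c.ψ c.x₀) y < τ1 c) :
    ∃ w ∈ ball c.x₀ c.r₁, c.ψ w = y ∧ ‖w - c.x₀‖ ≤ c.L * dist (c.ψ c.x₀) y := by
  have hL := c.one_le_L
  obtain ⟨w, hw, hwy, hle⟩ := c.in_chart (mem_ball_self c.r₁pos)
    (lt_of_lt_of_le hy (min_le_left _ _))
  refine ⟨w, ?_, hwy, hle⟩
  rw [mem_ball, dist_eq_norm]
  have h1 : dist (c.ψ c.x₀) y < c.r₁ / c.L := lt_of_lt_of_le hy (min_le_right _ _)
  rw [lt_div_iff₀ (by linarith)] at h1
  linarith

theorem dist_lt {u : E} (hu : u ∈ ball c.x₀ (ρ1 c)) : dist (c.ψ c.x₀) (c.ψ u) < τ1 c := by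
  have hL := c.one_le_L
  have h1 := c.dist_le (mem_ball_self c.r₁pos) (ball_subset_ball (ρ1_le c) hu)
  rw [mem_ball, dist_eq_norm] at hu
  unfold ρ1 at hu
  rw [lt_div_iff₀ (by linarith)] at hu
  linarith

/-- constant -/
def K2 : ℝ := Real.sqrt (K1 c) * c.L ^ 4 / (1 - Real.sqrt (1 / 2))

theorem K2_nonneg : 0 ≤ K2 c := by
  have h1 : Real.sqrt (1 / 2) < 1 := by
    rw [Real.sqrt_lt' one_pos]; norm_num
  have h2 := c.one_le_L
  unfold K2
  apply div_nonneg _ (by linarith)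
  positivity

theorem close (hmid : ∀ x y : M, ∃ m : M, dist x m = dist x y / 2 ∧ dist m y = dist x y / 2)
    (h : M ≃ᵢ M) (hp : h (c.ψ c.x₀) = c.ψ c.x₀)
    (hd : HasFDerivAt (fun u => c.φ (h (c.ψ u))) (ContinuousLinearMap.id ℝ E) c.x₀)
    {u : E} (hu : u ∈ ball c.x₀ (ρ1 c)) :
    ‖c.φ (h (c.ψ u)) - u‖ ≤ K2 c * (1 + c.L ^ 3) * (‖u - c.x₀‖ * Real.sqrt ‖u - c.x₀‖) := by
  have hL := c.one_le_L
  have hK2 := K2_nonneg c
  set p := c.ψ c.x₀ with hpdef
  have hx0 : c.x₀ ∈ ball c.x₀ c.r₁ := mem_ball_self c.r₁pos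
  have hu1 : u ∈ ball c.x₀ c.r₁ := ball_subset_ball (ρ1_le c) hu
  -- the sequence of midpoints
  choose mm hm1 hm2 using hmid
  let P : ℕ → M := fun k => Nat.rec (c.ψ u) (fun _ y => mm p y) k
  have P0 : P 0 = c.ψ u := rfl
  have PS : ∀ k, P (k + 1) = mm p (P k) := fun k => rfl
  have hP1 : ∀ k, dist p (P (k + 1)) = dist p (P k) / 2 := fun k => by rw [PS]; exact hm1 _ _
  have hP2 : ∀ k, dist (P (k + 1)) (P k) = dist p (P k) / 2 := fun k => by rw [PS]; exact hm2 _ _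
  have hPd : ∀ k, dist p (P k) = dist p (c.ψ u) * (1 / 2) ^ k := by
    intro k
    induction k with
    | zero => simp [P0]
    | succ k ih => rw [hP1, ih, pow_succ]; ring
  have hPlt : ∀ k, dist p (P k) < τ1 c := by
    intro k
    rw [hPd]
    refine lt_of_le_of_lt ?_ (dist_lt c hu)
    have : (1 / 2 : ℝ) ^ k ≤ 1 := pow_le_one₀ (by norm_num) (by norm_num)
    have := dist_nonneg (x := p) (y := c.ψ u)
    nlinarith
  have hhP : ∀ k, dist p (h (P k)) = dist p (P k) := by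
    intro k
    calc dist p (h (P k)) = dist (h p) (h (P k)) := by rw [hp]
      _ = _ := h.isometry.dist_eq _ _
  have hex1 : ∀ k, ∃ w ∈ ball c.x₀ c.r₁, c.ψ w = P k ∧ ‖w - c.x₀‖ ≤ c.L * dist p (P k) :=
    fun k => near c (hPlt k)
  have hex2 : ∀ k, ∃ w ∈ ball c.x₀ c.r₁, c.ψ w = h (P k) ∧
      ‖w - c.x₀‖ ≤ c.L * dist p (h (P k)) :=
    fun k => near c (by rw [← hpdef, hhP]; exact hPlt k)
  choose m hm hmP hmn using hex1
  choose m' hm' hmP' hmn' using hex2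
  have hinj : ∀ a ∈ ball c.x₀ c.r₁, ∀ b ∈ ball c.x₀ c.r₁, c.ψ a = c.ψ b → a = b := by
    intro a ha b hb hab
    rw [← c.φψ a (c.ball_sub ha), ← c.φψ b (c.ball_sub hb), hab]
  have hm0 : m 0 = u := hinj _ (hm 0) _ hu1 (hmP 0)
  have hm'H : ∀ k, m' k = c.φ (h (c.ψ (m k))) := by
    intro k
    rw [hmP, ← hmP', c.φψ _ (c.ball_sub (hm' k))]
  have e1 : ∀ k, ‖(2 : ℝ) ^ k • (m k - c.x₀) - (m 0 - c.x₀)‖ ≤
      K2 c * (‖m 0 - c.x₀‖ * Real.sqrt ‖m 0 - c.x₀‖) := by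
    intro k
    apply iter_est c m hx0 hm
    · intro k
      rw [hmP, hmP]; exact hP1 k
    · intro k
      rw [hmP, hmP]; exact hP2 k
  have e2 : ∀ k, ‖(2 : ℝ) ^ k • (m' k - c.x₀) - (m' 0 - c.x₀)‖ ≤
      K2 c * (‖m' 0 - c.x₀‖ * Real.sqrt ‖m' 0 - c.x₀‖) := by
    intro k
    apply iter_est c m' hx0 hm'
    · intro k
      rw [hmP', hmP', ← hpdef, hhP (k + 1), hhP k]; exact hP1 k
    · intro k
      rw [hmP', hmP', ← hpdef, hhP k, h.isometry.dist_eq]; exact hP2 k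
  rw [hm0] at e1
  have hu'0 : m' 0 = c.φ (h (c.ψ u)) := by rw [hm'H, hm0]
  rw [hu'0] at e2
  set u' := c.φ (h (c.ψ u)) with hu'
  set N := ‖u - c.x₀‖ with hN
  have hN0 : 0 ≤ N := norm_nonneg _
  have hDN : dist p (c.ψ u) ≤ c.L * N := c.dist_le hx0 hu1
  have hN' : ‖u' - c.x₀‖ ≤ c.L ^ 2 * N := by
    have := hmn' 0
    rw [hu'0, hhP, P0] at this
    calc ‖u' - c.x₀‖ ≤ c.L * dist p (c.ψ u) := this
      _ ≤ c.L * (c.L * N) := by gcongr
      _ = _ := by ring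
  have hs' : Real.sqrt ‖u' - c.x₀‖ ≤ c.L * Real.sqrt N := by
    refine (Real.sqrt_le_sqrt hN').trans ?_
    rw [Real.sqrt_mul (by positivity), Real.sqrt_sq (by linarith)]
  -- the small term
  have hmt : Tendsto m atTop (𝓝 c.x₀) := by
    rw [tendsto_iff_norm_sub_tendsto_zero]
    have h0 : Tendsto (fun k : ℕ => c.L * (dist p (c.ψ u) * (1 / 2) ^ k)) atTop (𝓝 0) := by
      have := (tendsto_pow_atTop_nhds_zero_of_lt_one (r := (1 / 2 : ℝ)) (by norm_num)
        (by norm_num)).const_mul (c.L * dist p (c.ψ u))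
      rw [mul_zero] at this
      refine this.congr fun k => by ring
    refine squeeze_zero (fun _ => norm_nonneg _) (fun k => ?_) h0
    rw [← hPd]
    exact hmn k
  have hH0 : c.φ (h (c.ψ c.x₀)) = c.x₀ := by
    rw [← hpdef, hp, hpdef, c.φψ _ (mem_ball_self c.rpos)]
  have e3 : ∀ ε > 0, ‖u' - u‖ ≤ K2 c * (1 + c.L ^ 3) * (N * Real.sqrt N) +
      ε * (c.L * dist p (c.ψ u)) := by
    intro ε hε
    have h1 := hmt.eventually (hd.isLittleO.def hε)
    obtain ⟨k, hk⟩ := h1.exists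
    rw [hH0] at hk
    have hk' : ‖m' k - m k‖ ≤ ε * ‖m k - c.x₀‖ := by
      have e : c.φ (h (c.ψ (m k))) - c.x₀ - (ContinuousLinearMap.id ℝ E) (m k - c.x₀) =
          m' k - m k := by
        rw [hm'H, ContinuousLinearMap.id_apply]; abel
      rwa [e] at hk
    have h2 : ‖(2 : ℝ) ^ k • (m' k - m k)‖ ≤ ε * (c.L * dist p (c.ψ u)) := by
      rw [norm_smul, Real.norm_of_nonneg (by positivity)]
      have h3 := hmn k
      rw [hPd] at h3
      calc (2 : ℝ) ^ k * ‖m' k - m k‖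
          ≤ (2 : ℝ) ^ k * (ε * (c.L * (dist p (c.ψ u) * (1 / 2) ^ k))) := by
            apply mul_le_mul_of_nonneg_left _ (by positivity)
            exact hk'.trans (mul_le_mul_of_nonneg_left h3 hε.le)
        _ = ((2 : ℝ) ^ k * (1 / 2) ^ k) * (ε * (c.L * dist p (c.ψ u))) := by ring
        _ = _ := by
            have : (2 : ℝ) ^ k * (1 / 2) ^ k = 1 := by
              rw [← mul_pow]; norm_num
            rw [this, one_mul]
    have h4 : u' - u = ((2 : ℝ) ^ k • (m k - c.x₀) - (u - c.x₀)) -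
        ((2 : ℝ) ^ k • (m' k - c.x₀) - (u' - c.x₀)) + (2 : ℝ) ^ k • (m' k - m k) := by
      module
    rw [h4]
    refine (norm_add_le _ _).trans ?_
    have h5 := norm_sub_le ((2 : ℝ) ^ k • (m k - c.x₀) - (u - c.x₀))
      ((2 : ℝ) ^ k • (m' k - c.x₀) - (u' - c.x₀))
    have h6 := e1 k
    have h7 := e2 k
    have h8 : K2 c * (‖u' - c.x₀‖ * Real.sqrt ‖u' - c.x₀‖) ≤
        K2 c * (c.L ^ 3 * (N * Real.sqrt N)) := by
      apply mul_le_mul_of_nonneg_left _ hK2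
      calc ‖u' - c.x₀‖ * Real.sqrt ‖u' - c.x₀‖ ≤ (c.L ^ 2 * N) * (c.L * Real.sqrt N) := by gcongr
        _ = _ := by ring
    nlinarith
  apply le_of_forall_pos_le_add
  intro δ hδ
  have hD0 : 0 ≤ c.L * dist p (c.ψ u) := by positivity
  have := e3 (δ / (c.L * dist p (c.ψ u) + 1)) (by positivity)
  refine this.trans ?_
  gcongr
  rw [div_mul_eq_mul_div, div_le_iff₀ (by positivity)]
  nlinarith

end

end Pool.Agent.Q145.Nag
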