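import Pool.Agent.Q145.Nag.C2

/-! The group of isometries fixing a point with derivative the identity; circumcentres. -/

set_option autoImplicit false

namespace Pool.Agent.Q145.Nag

open Pool.Agent.Helper381 Set Metric Filter Topology

noncomputable section

variable {M E : Type} [MetricSpace M] [NormedAddCommGroup E] [NormedSpace ℝ E] (c : Loc M E)

/-- isometries fixing the centre of the chart with derivative the identity -/
def JJ : Set (M ≃ᵢ M) :=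
  {h | h (c.ψ c.x₀) = c.ψ c.x₀ ∧
    HasFDerivAt (fun u => c.φ (h (c.ψ u))) (ContinuousLinearMap.id ℝ E) c.x₀}

theorem phi_near (h : M ≃ᵢ M) (hp : h (c.ψ c.x₀) = c.ψ c.x₀) {u : E}
    (hu : u ∈ ball c.x₀ (ρ1 c)) : c.φ (h (c.ψ u)) ∈ ball c.x₀ c.r₁ ∧
      c.ψ (c.φ (h (c.ψ u))) = h (c.ψ u) ∧
      ‖c.φ (h (c.ψ u)) - c.x₀‖ ≤ c.L ^ 2 * ‖u - c.x₀‖ := by
  have hL := c.one_le_L
  have h1 : dist (c.ψ c.x₀) (h (c.ψ u)) = dist (c.ψ c.x₀) (c.ψ u) := by
    calc dist (c.ψ c.x₀) (h (c.ψ u)) = dist (h (c.ψ c.x₀)) (h (c.ψ u)) := by rw [hp]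
      _ = _ := h.isometry.dist_eq _ _
  obtain ⟨w, hw, hwy, hle⟩ := near c (y := h (c.ψ u)) (by rw [h1]; exact dist_lt c hu)
  have e : c.φ (h (c.ψ u)) = w := by rw [← hwy, c.φψ _ (c.ball_sub hw)]
  rw [e]
  refine ⟨hw, hwy, hle.trans ?_⟩
  rw [h1]
  have h2 := c.dist_le (mem_ball_self c.r₁pos) (ball_subset_ball (ρ1_le c) hu)
  calc c.L * dist (c.ψ c.x₀) (c.ψ u) ≤ c.L * (c.L * ‖u - c.x₀‖) := by gcongr
    _ = _ := by ring

theorem nhds_ρ1 : ball c.x₀ (ρ1 c) ∈ 𝓝 c.x₀ := ball_mem_nhds _ (ρ1pos c)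

theorem JJ_mul {g h : M ≃ᵢ M} (hg : g ∈ JJ c) (hh : h ∈ JJ c) : g * h ∈ JJ c := by
  refine ⟨?_, ?_⟩
  · change g (h _) = _
    rw [hh.1, hg.1]
  · have e0 : c.φ (h (c.ψ c.x₀)) = c.x₀ := by rw [hh.1, c.φψ _ (mem_ball_self c.rpos)]
    have h1 : HasFDerivAt (fun u => c.φ (g (c.ψ u))) (ContinuousLinearMap.id ℝ E)
        (c.φ (h (c.ψ c.x₀))) := by rw [e0]; exact hg.2
    have h2 := h1.comp c.x₀ hh.2
    rw [ContinuousLinearMap.id_comp] at h2
    refine h2.congr_of_eventuallyEq ?_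
    filter_upwards [nhds_ρ1 c] with u hu
    change c.φ (g (h (c.ψ u))) = c.φ (g (c.ψ (c.φ (h (c.ψ u)))))
    rw [(phi_near c h hh.1 hu).2.1]

theorem JJ_inv {h : M ≃ᵢ M} (hh : h ∈ JJ c) : h⁻¹ ∈ JJ c := by
  have hL := c.one_le_L
  have hp : h⁻¹ (c.ψ c.x₀) = c.ψ c.x₀ := by
    change h.symm (c.ψ c.x₀) = c.ψ c.x₀
    rw [IsometryEquiv.symm_apply_eq]
    exact hh.1.symm
  refine ⟨hp, ?_⟩
  have e0 : c.φ (h⁻¹ (c.ψ c.x₀)) = c.x₀ := by rw [hp, c.φψ _ (mem_ball_self c.rpos)]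
  have h1 : HasFDerivAt (fun u => c.φ (h (c.ψ u)))
      ((ContinuousLinearEquiv.refl ℝ E : E ≃L[ℝ] E) : E →L[ℝ] E)
      ((fun u => c.φ (h⁻¹ (c.ψ u))) c.x₀) := by
    simp only [e0]
    exact hh.2
  have h2 := HasFDerivAt.of_local_left_inverse (g := fun u => c.φ (h⁻¹ (c.ψ u))) (a := c.x₀) ?_
    h1 ?_
  · exact h2
  · rw [ContinuousAt, e0, tendsto_iff_norm_sub_tendsto_zero]
    have h3 : Tendsto (fun u => c.L ^ 2 * ‖u - c.x₀‖) (𝓝 c.x₀) (𝓝 0) := by
      have : Continuous fun u => c.L ^ 2 * ‖u - c.x₀‖ := by fun_prop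
      have := this.tendsto c.x₀
      simpa using this
    refine squeeze_zero' (Eventually.of_forall fun _ => norm_nonneg _) ?_ h3
    filter_upwards [nhds_ρ1 c] with u hu
    exact (phi_near c _ hp hu).2.2
  · filter_upwards [nhds_ρ1 c] with u hu
    rw [(phi_near c _ hp hu).2.1]
    have : h (h⁻¹ (c.ψ u)) = c.ψ u := h.apply_symm_apply _
    rw [this, c.φψ _ (ball_subset_ball ((ρ1_le c).trans (by linarith [c.r₁_lt, c.r₁pos])) hu)]

theorem JJ_one : (1 : M ≃ᵢ M) ∈ JJ c := by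
  refine ⟨rfl, ?_⟩
  refine (hasFDerivAt_id c.x₀).congr_of_eventuallyEq ?_
  filter_upwards [ball_mem_nhds c.x₀ c.rpos] with u hu
  exact c.φψ u hu

/-- a small subset of a compact space has a centre fixed by all isometries preserving it -/
theorem center {R : ℝ} (G : Geo M E R) [CompactSpace M] (O : Set M) (z : M) (hz : z ∈ O) (δ : ℝ)
    (hδ : δ < R) (hO : ∀ o ∈ O, dist z o ≤ δ) :
    ∃ w, dist z w ≤ δ ∧ ∀ g : M ≃ᵢ M, (∀ o ∈ O, ∃ o' ∈ O, g o' = o) → g w = w := by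
  classical
  have hne : Nonempty O := ⟨⟨z, hz⟩⟩
  let f : M → ℝ := fun w => ⨆ o : O, dist w (o : M)
  have hbdd : ∀ w : M, BddAbove (range fun o : O => dist w (o : M)) := by
    intro w
    refine ⟨Metric.diam (univ : Set M), ?_⟩
    rintro _ ⟨o, rfl⟩
    exact Metric.dist_le_diam_of_mem (isCompact_univ (X := M)).isBounded (mem_univ _) (mem_univ _)
  have hle : ∀ w, ∀ o ∈ O, dist w o ≤ f w := fun w o ho => le_ciSup (hbdd w) ⟨o, ho⟩
  have hfc : LipschitzWith 1 f := by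
    apply LipschitzWith.of_le_add
    intro w w'
    apply ciSup_le
    intro o
    have h1 := dist_triangle w w' o
    have h2 := hle w' o.1 o.2
    linarith
  obtain ⟨w, _, hw⟩ := isCompact_univ.exists_isMinOn ⟨z, mem_univ z⟩ hfc.continuous.continuousOn
  have hmin : ∀ w', f w ≤ f w' := fun w' => hw (mem_univ w')
  have hfz : f z ≤ δ := ciSup_le fun o => hO o.1 o.2
  have hfw : f w ≤ δ := (hmin z).trans hfz
  have huniq : ∀ w', f w' = f w → w' = w := by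
    intro w' hw'
    by_contra hne'
    obtain ⟨c, hc⟩ := G.chart z
    have hwz : dist w z ≤ δ := (hle w z hz).trans hfw
    have hwz' : dist w' z ≤ δ := (hle w' z hz).trans (hw' ▸ hfw)
    have hwW : w ∈ c.W := hc (by rw [mem_ball]; linarith)
    have hwW' : w' ∈ c.W := hc (by rw [mem_ball]; linarith)
    have hQ := c.Q_pos_of_ne hwW' hwW hne'
    set q := 3 / 16 * c.Q (c.φ w' - c.φ w) with hq
    have hq0 : 0 < q := by positivity
    have h1 : ∀ o ∈ O, dist (c.mid w' w) o ^ 2 ≤ f w ^ 2 - q := by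
      intro o ho
      have hoW : o ∈ c.W := hc (by rw [mem_ball, dist_comm]; linarith [hO o ho])
      have h2 := c.sc' hoW hwW' hwW
      have h3 : dist o w' ≤ f w := by rw [dist_comm, ← hw']; exact hle w' o ho
      have h4 : dist o w ≤ f w := by rw [dist_comm]; exact hle w o ho
      have h5 : dist o w' ^ 2 ≤ f w ^ 2 := pow_le_pow_left₀ dist_nonneg h3 2
      have h6 : dist o w ^ 2 ≤ f w ^ 2 := pow_le_pow_left₀ dist_nonneg h4 2
      rw [dist_comm]
      linarith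
    have hfw0 : 0 ≤ f w := le_trans dist_nonneg (hle w z hz)
    have h2 : 0 ≤ f w ^ 2 - q := le_trans (sq_nonneg _) (h1 z hz)
    have h3 : f (c.mid w' w) ≤ Real.sqrt (f w ^ 2 - q) := by
      apply ciSup_le
      intro o
      exact Real.le_sqrt_of_sq_le (h1 o.1 o.2)
    have h4 : Real.sqrt (f w ^ 2 - q) < f w := by
      have hfpos : 0 < f w := by
        rcases hfw0.lt_or_eq with h | h
        · exact h
        · rw [← h] at h2; nlinarith
      rw [Real.sqrt_lt' hfpos]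
      linarith
    exact absurd (hmin (c.mid w' w)) (not_le.mpr (lt_of_le_of_lt h3 h4))
  refine ⟨w, ?_, ?_⟩
  · rw [dist_comm]; exact (hle w z hz).trans hfw
  · intro g hg
    apply huniq
    apply le_antisymm _ (hmin _)
    apply ciSup_le
    rintro ⟨o, ho⟩
    obtain ⟨o', ho', rfl⟩ := hg o ho
    change dist (g w) (g o') ≤ f w
    rw [g.isometry.dist_eq]
    exact hle w o' ho'

theorem exists_s (α β γ : ℝ) (hα : 0 < α) (hβ : 0 ≤ β) (hγ : 0 ≤ γ) :
    ∃ s : ℝ, 0 < s ∧ s < α ∧ β * s < 1 / 2 ∧ γ * Real.sqrt s ≤ 1 / 2 := by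
  set s := min (α / 2) (min (1 / (4 * (β + 1))) ((1 / (2 * (γ + 1))) ^ 2)) with hs
  have h0 : 0 < s := lt_min (by linarith) (lt_min (by positivity) (by positivity))
  have h1 : s ≤ α / 2 := min_le_left _ _
  have h2 : s ≤ 1 / (4 * (β + 1)) := (min_le_right _ _).trans (min_le_left _ _)
  have h3 : s ≤ (1 / (2 * (γ + 1))) ^ 2 := (min_le_right _ _).trans (min_le_right _ _)
  refine ⟨s, h0, by linarith, ?_, ?_⟩
  · rw [le_div_iff₀ (by positivity)] at h2
    nlinarith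
  · have h4 : Real.sqrt s ≤ 1 / (2 * (γ + 1)) := by
      rw [Real.sqrt_le_left (by positivity)]
      exact h3
    rw [le_div_iff₀ (by positivity)] at h4
    have := Real.sqrt_nonneg s
    nlinarith

/-- near every point close to the centre there is a common fixed point of the group -/
theorem fix_near {R : ℝ} (G : Geo M E R) [CompactSpace M] :
    ∃ ρ > 0, ρ ≤ ρ1 c ∧ ∀ u ∈ ball c.x₀ ρ, ∃ w ∈ ball c.x₀ c.r₁, (∀ g ∈ JJ c, g (c.ψ w) = c.ψ w) ∧
      ‖w - u‖ ≤ c.L ^ 2 * (K2 c * (1 + c.L ^ 3)) * (‖u - c.x₀‖ * Real.sqrt ‖u - c.x₀‖) := by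
  have hL := c.one_le_L
  set K3 := K2 c * (1 + c.L ^ 3) with hK3
  have hK30 : 0 ≤ K3 := by
    have := K2_nonneg c
    positivity
  have hmin : 0 < min R (τ1 c) := lt_min G.Rpos (τ1pos c)
  have hpos : 0 < c.L + c.L * K3 := by positivity
  refine ⟨min (ρ1 c) (min 1 (min R (τ1 c) / (c.L + c.L * K3))), ?_, min_le_left _ _, ?_⟩
  · exact lt_min (ρ1pos c) (lt_min one_pos (by positivity))
  intro u hu
  have hu1 : u ∈ ball c.x₀ (ρ1 c) := ball_subset_ball (min_le_left _ _) hu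
  have hur : u ∈ ball c.x₀ c.r₁ := ball_subset_ball (ρ1_le c) hu1
  rw [mem_ball, dist_eq_norm] at hu
  set N := ‖u - c.x₀‖ with hN
  have hN0 : 0 ≤ N := norm_nonneg _
  have hN1 : N < 1 := lt_of_lt_of_le hu ((min_le_right _ _).trans (min_le_left _ _))
  have hN2 : N < min R (τ1 c) / (c.L + c.L * K3) :=
    lt_of_lt_of_le hu ((min_le_right _ _).trans (min_le_right _ _))
  rw [lt_div_iff₀ hpos] at hN2
  have hsN : Real.sqrt N ≤ 1 := by
    rw [Real.sqrt_le_left one_pos.le]; linarith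
  have hs0 := Real.sqrt_nonneg N
  set δ := c.L * (K3 * (N * Real.sqrt N)) with hδ
  have hδ1 : c.L * N + δ < min R (τ1 c) := by
    have : K3 * (N * Real.sqrt N) ≤ K3 * N := by
      apply mul_le_mul_of_nonneg_left _ hK30
      nlinarith
    nlinarith
  have hδ0 : 0 ≤ δ := by positivity
  have hδR : δ < R := by
    have := min_le_left R (τ1 c)
    have : 0 ≤ c.L * N := by positivity
    linarith
  have hd : ∀ g ∈ JJ c, dist (c.ψ u) (g (c.ψ u)) ≤ δ := by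
    intro g hg
    obtain ⟨h1, h2, h3⟩ := phi_near c g hg.1 hu1
    have h4 := c.dist_le hur h1
    rw [h2] at h4
    have h5 := close c G.midpt g hg.1 hg.2 hu1
    calc dist (c.ψ u) (g (c.ψ u)) ≤ c.L * ‖c.φ (g (c.ψ u)) - u‖ := h4
      _ ≤ c.L * (K3 * (N * Real.sqrt N)) := by gcongr
  obtain ⟨W, hW1, hW2⟩ := center G {y | ∃ g ∈ JJ c, y = g (c.ψ u)} (c.ψ u)
    ⟨1, JJ_one c, rfl⟩ δ hδR (by
      rintro _ ⟨g, hg, rfl⟩
      exact hd g hg)
  have hpW : dist (c.ψ c.x₀) W < τ1 c := by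
    have h1 := dist_triangle (c.ψ c.x₀) (c.ψ u) W
    have h2 := c.dist_le (mem_ball_self c.r₁pos) hur
    have h3 := min_le_right R (τ1 c)
    linarith
  obtain ⟨w, hw, rfl, _⟩ := near c hpW
  refine ⟨w, hw, ?_, ?_⟩
  · intro g hg
    apply hW2
    rintro _ ⟨g', hg', rfl⟩
    refine ⟨(g⁻¹ * g') (c.ψ u), ⟨_, JJ_mul c (JJ_inv c hg) hg', rfl⟩, ?_⟩
    change g (g⁻¹ (g' (c.ψ u))) = _
    exact g.apply_symm_apply _
  · have h1 := c.norm_le hur hw
    calc ‖w - u‖ ≤ c.L * dist (c.ψ u) (c.ψ w) := h1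
      _ ≤ c.L * δ := by gcongr
      _ = _ := by rw [hδ]; ring

end

end Pool.Agent.Q145.Nag
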