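import Pool.Agent.Q145.Nag.C3

/-! An isometry which fixes a point with derivative the identity is the identity. -/

set_option autoImplicit false

namespace Pool.Agent.Q145.Nag

open Pool.Agent.Helper381 Set Metric Filter Topology

noncomputable section

variable {M E : Type} [MetricSpace M] [NormedAddCommGroup E] [NormedSpace ℝ E] (c : Loc M E)

theorem G_add {y : E} (hy : y ∈ ball c.x₀ c.r) (v w : E) :
    c.G y (v + w) (v + w) ≤ 2 * c.G y v v + 2 * c.G y w w := by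
  have h1 := c.nonneg hy (v - w)
  have e1 : c.G y (v + w) (v + w) = 2 * c.G y v v + 2 * c.G y w w - c.G y (v - w) (v - w) := by
    simp only [map_sub, map_add, LinearMap.sub_apply, LinearMap.add_apply]
    ring
  linarith

/-- the estimate at the end of the argument -/
theorem end_est {y f mk ν' : E} {s lam' : ℝ} (hy : y ∈ ball c.x₀ c.r₁) (hf : f ∈ ball c.x₀ c.r₁)
    (hmk : mk ∈ ball c.x₀ c.r₁) (hyf : y ≠ f) (hs : 0 < s) (C7 : ℝ) (hC7 : 0 ≤ C7)
    (hs7 : C7 * Real.sqrt s ≤ 1 / 2)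
    (hsβ : ((3 / 2 * c.C₃ + 2 * c.C * C7 ^ 2) * c.L ^ 2) * s < 1 / 2)
    (hb : ‖y - f‖ ≤ s) (hν : ν' = (‖y - f‖)⁻¹ • (y - f))
    (hl1 : lam' ≤ ‖y - f‖) (hl2 : ‖y - f‖ ≤ 2 * lam')
    (hm : ‖(mk - f) - lam' • ν'‖ ≤ C7 * lam' * Real.sqrt s) :
    dist (c.ψ y) (c.ψ mk) < dist (c.ψ y) (c.ψ f) := by
  have hL := c.one_le_L
  have hC3 := c.C₃pos
  have hC := c.Cpos
  set b := ‖y - f‖ with hbdef
  have hb0 : 0 < b := norm_pos_iff.mpr (sub_ne_zero.mpr hyf)
  have hss := Real.sqrt_nonneg s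
  set D := dist (c.ψ y) (c.ψ f) with hD
  have hbD : b ≤ c.L * D := by
    have := c.norm_le hf hy
    rwa [dist_comm (c.ψ f)] at this
  have hD0 : 0 < D := by
    by_contra h
    push Not at h
    have : c.L * D ≤ 0 := by nlinarith
    linarith
  set θ := 1 - lam' / b with hθ
  have hθ0 : 0 ≤ θ := by
    rw [hθ, sub_nonneg, div_le_one hb0]; exact hl1
  have hθ1 : θ ≤ 1 / 2 := by
    have : 1 / 2 ≤ lam' / b := by
      rw [le_div_iff₀ hb0]; linarith
    linarith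
  set e : E := (mk - f) - lam' • ν' with he
  have heb : ‖e‖ ≤ C7 * Real.sqrt s * b := by
    refine hm.trans ?_
    have : C7 * lam' * Real.sqrt s = C7 * Real.sqrt s * lam' := by ring
    rw [this]
    gcongr
  have heb2 : ‖e‖ ≤ b / 2 := by
    refine heb.trans ?_
    nlinarith
  have hv : mk - y = -(θ • (y - f)) + e := by
    have h1 : lam' • ν' = (lam' / b) • (y - f) := by
      rw [hν, smul_smul, div_eq_mul_inv]
    rw [he, h1, hθ, sub_smul, one_smul]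
    abel
  have hvn : ‖mk - y‖ ≤ b := by
    rw [hv]
    refine (norm_add_le _ _).trans ?_
    rw [norm_neg, norm_smul, Real.norm_of_nonneg hθ0]
    nlinarith
  have hyr := c.ball_sub hy
  have e1 : c.G y (mk - y) (mk - y) ≤ 1 / 2 * c.G y (f - y) (f - y) +
      2 * (c.C * (C7 ^ 2 * s * b ^ 2)) := by
    rw [hv]
    refine (G_add c hyr _ _).trans ?_
    have h1 : c.G y (-(θ • (y - f))) (-(θ • (y - f))) = θ ^ 2 * c.G y (f - y) (f - y) := by
      have : -(θ • (y - f)) = θ • (f - y) := by rw [← smul_neg, neg_sub]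
      rw [this]
      simp only [map_smul, LinearMap.smul_apply, smul_eq_mul]
      ring
    have h2 := c.nonneg hyr (f - y)
    have h3 : θ ^ 2 ≤ 1 / 4 := by nlinarith
    have h4 : c.G y e e ≤ c.C * (C7 ^ 2 * s * b ^ 2) := by
      refine (c.upper y hyr e).trans ?_
      have : ‖e‖ ^ 2 ≤ (C7 * Real.sqrt s * b) ^ 2 := by gcongr
      rw [mul_pow, mul_pow, Real.sq_sqrt hs.le] at this
      gcongr
    rw [h1]
    nlinarith
  have e2 := c.dist_sq_le' hy hmk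
  have e3 := c.le_dist_sq' hy hf
  have e4 : ‖f - y‖ = b := by rw [norm_sub_rev]
  rw [e4, ← hD] at e3
  have e5 : c.C₃ * ‖mk - y‖ ^ 3 ≤ c.C₃ * b ^ 3 := by gcongr
  have e6 : dist (c.ψ y) (c.ψ mk) ^ 2 ≤ 1 / 2 * D ^ 2 + 3 / 2 * c.C₃ * b ^ 3 +
      2 * (c.C * (C7 ^ 2 * s * b ^ 2)) := by linarith
  have e7 : b ^ 3 ≤ s * b ^ 2 := by
    have : b ^ 3 = b * b ^ 2 := by ring
    rw [this]
    gcongr
  have e8 : 3 / 2 * c.C₃ * b ^ 3 + 2 * (c.C * (C7 ^ 2 * s * b ^ 2)) ≤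
      (3 / 2 * c.C₃ + 2 * c.C * C7 ^ 2) * s * b ^ 2 := by
    have : 3 / 2 * c.C₃ * b ^ 3 ≤ 3 / 2 * c.C₃ * (s * b ^ 2) := by gcongr
    nlinarith
  have e9 : b ^ 2 ≤ c.L ^ 2 * D ^ 2 := by
    rw [← mul_pow]; gcongr
  have e10 : (3 / 2 * c.C₃ + 2 * c.C * C7 ^ 2) * s * b ^ 2 ≤
      (3 / 2 * c.C₃ + 2 * c.C * C7 ^ 2) * s * (c.L ^ 2 * D ^ 2) := by gcongr
  have e11 : (3 / 2 * c.C₃ + 2 * c.C * C7 ^ 2) * s * (c.L ^ 2 * D ^ 2) =
      ((3 / 2 * c.C₃ + 2 * c.C * C7 ^ 2) * c.L ^ 2) * s * D ^ 2 := by ring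
  have e12 : ((3 / 2 * c.C₃ + 2 * c.C * C7 ^ 2) * c.L ^ 2) * s * D ^ 2 < 1 / 2 * D ^ 2 := by
    apply mul_lt_mul_of_pos_right hsβ
    positivity
  have e13 : dist (c.ψ y) (c.ψ mk) ^ 2 < D ^ 2 := by linarith
  exact lt_of_pow_lt_pow_left₀ 2 hD0.le e13

theorem rigid_near {R : ℝ} (G : Geo M E R) [CompactSpace M] :
    ∃ t > 0, ∀ y ∈ ball c.x₀ t, ∀ g ∈ JJ c, g (c.ψ y) = c.ψ y := by
  have hL := c.one_le_L
  have hK2 := K2_nonneg c
  obtain ⟨ρ, hρ0, hρ1, hfix⟩ := fix_near c G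
  set C5 := c.L ^ 2 * (K2 c * (1 + c.L ^ 3)) with hC5
  have hC50 : 0 ≤ C5 := by positivity
  set C7 := 4 * C5 + 4 * K2 c with hC7
  have hC70 : 0 ≤ C7 := by positivity
  have hC3 := c.C₃pos
  have hC := c.Cpos
  obtain ⟨s, hs0, hsα, hsβ, hs7⟩ := exists_s (min (ρ / 3) (R / (3 * c.L)))
    ((3 / 2 * c.C₃ + 2 * c.C * C7 ^ 2) * c.L ^ 2) C7
    (lt_min (by linarith) (by have := G.Rpos; positivity)) (by positivity) hC70
  have hsρ : 3 * s < ρ := by
    have := lt_of_lt_of_le hsα (min_le_left _ _)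
    linarith
  have hsR : 3 * c.L * s < R := by
    have := lt_of_lt_of_le hsα (min_le_right _ _)
    rw [lt_div_iff₀ (by positivity)] at this
    linarith
  have hss := Real.sqrt_nonneg s
  have hsτ : 3 * c.L * s < τ1 c := by
    have h1 : 3 * s < ρ1 c := by linarith
    unfold ρ1 at h1
    rw [lt_div_iff₀ (by linarith)] at h1
    linarith
  have hr1 : 3 * s < c.r₁ := by linarith [ρ1_le c]
  refine ⟨s / (2 * c.L ^ 2), by positivity, ?_⟩
  intro y hy
  by_contra hcon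
  push Not at hcon
  obtain ⟨g0, hg0, hg0y⟩ := hcon
  -- the fixed set
  let F : Set M := {z | ∀ g ∈ JJ c, g z = z}
  have hFc : IsClosed F := by
    have : F = ⋂ g ∈ JJ c, {z | g z = z} := by
      ext z; simp [F]
    rw [this]
    exact isClosed_biInter fun g _ => isClosed_eq g.continuous continuous_id
  have hpF : c.ψ c.x₀ ∈ F := fun g hg => hg.1
  have hyF : c.ψ y ∉ F := fun h => hg0y (h g0 hg0)
  rw [mem_ball, dist_eq_norm, lt_div_iff₀ (by positivity)] at hy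
  have hL2 : 1 ≤ c.L ^ 2 := by nlinarith
  have hys : ‖y - c.x₀‖ ≤ s := by
    have h1 := norm_nonneg (y - c.x₀)
    have h2 : ‖y - c.x₀‖ * 1 ≤ ‖y - c.x₀‖ * (2 * c.L ^ 2) := by
      apply mul_le_mul_of_nonneg_left _ h1
      linarith
    linarith
  have hyr : y ∈ ball c.x₀ c.r₁ := by
    rw [mem_ball, dist_eq_norm]; linarith
  obtain ⟨Pf, hPf, hPfmin⟩ := hFc.isCompact.exists_infDist_eq_dist ⟨_, hpF⟩ (c.ψ y)
  have hnear : ∀ z ∈ F, dist (c.ψ y) Pf ≤ dist (c.ψ y) z := by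
    intro z hz
    rw [← hPfmin]
    exact infDist_le_dist_of_mem hz
  have hyp : dist (c.ψ c.x₀) (c.ψ y) ≤ c.L * ‖y - c.x₀‖ := c.dist_le (mem_ball_self c.r₁pos) hyr
  have hyPf : dist (c.ψ y) Pf ≤ c.L * ‖y - c.x₀‖ := by
    refine (hnear _ hpF).trans ?_
    rw [dist_comm]; exact hyp
  have hLy : c.L ^ 2 * ‖y - c.x₀‖ < s / 2 := by linarith
  have hpPf : dist (c.ψ c.x₀) Pf ≤ 2 * (c.L * ‖y - c.x₀‖) := by
    have := dist_triangle (c.ψ c.x₀) (c.ψ y) Pf
    linarith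
  have hLy' : c.L * ‖y - c.x₀‖ ≤ c.L ^ 2 * ‖y - c.x₀‖ := by
    apply mul_le_mul_of_nonneg_right _ (norm_nonneg (y - c.x₀))
    nlinarith
  obtain ⟨f, hf, hfP, hfn⟩ := near c (y := Pf) (by
    refine lt_of_le_of_lt hpPf (lt_of_lt_of_le ?_ hsτ.le)
    nlinarith)
  have hfs : ‖f - c.x₀‖ ≤ s := by
    refine hfn.trans ?_
    calc c.L * dist (c.ψ c.x₀) Pf ≤ c.L * (2 * (c.L * ‖y - c.x₀‖)) := by gcongr
      _ = 2 * (c.L ^ 2 * ‖y - c.x₀‖) := by ring
      _ ≤ s := by linarith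
  have hyf : y ≠ f := by
    intro h
    apply hyF
    rw [h, hfP]
    exact hPf
  set b := ‖y - f‖ with hb
  have hb0 : 0 < b := norm_pos_iff.mpr (sub_ne_zero.mpr hyf)
  have hbs : b ≤ s := by
    have h1 := c.norm_le hf hyr
    rw [hfP, dist_comm] at h1
    calc b ≤ c.L * dist (c.ψ y) Pf := h1
      _ ≤ c.L * (c.L * ‖y - c.x₀‖) := by gcongr
      _ = c.L ^ 2 * ‖y - c.x₀‖ := by ring
      _ ≤ s := by linarith
  -- the direction
  set ν : E := (b)⁻¹ • (y - f) with hν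
  have hνn : ‖ν‖ = 1 := by
    rw [hν, norm_smul, norm_inv, Real.norm_of_nonneg hb0.le]
    exact inv_mul_cancel₀ hb0.ne'
  set u : E := f + s • ν with hu
  have hun : ‖u - c.x₀‖ ≤ 2 * s := by
    have : u - c.x₀ = (f - c.x₀) + s • ν := by rw [hu]; abel
    rw [this]
    refine (norm_add_le _ _).trans ?_
    rw [norm_smul, hνn, Real.norm_of_nonneg hs0.le]
    linarith
  obtain ⟨w, hw, hwF, hwu⟩ := hfix u (by rw [mem_ball, dist_eq_norm]; linarith)
  have hsq2 : ∀ r : ℝ, 0 ≤ r → r ≤ 2 * s → r * Real.sqrt r ≤ 4 * (s * Real.sqrt s) := by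
    intro r hr0 hr
    have h1 : Real.sqrt r ≤ 2 * Real.sqrt s := by
      rw [Real.sqrt_le_left (by positivity), mul_pow, Real.sq_sqrt hs0.le]
      linarith
    calc r * Real.sqrt r ≤ (2 * s) * (2 * Real.sqrt s) := by gcongr
      _ = _ := by ring
  have hwu' : ‖w - u‖ ≤ 4 * C5 * (s * Real.sqrt s) := by
    refine hwu.trans ?_
    calc C5 * (‖u - c.x₀‖ * Real.sqrt ‖u - c.x₀‖) ≤ C5 * (4 * (s * Real.sqrt s)) :=
          mul_le_mul_of_nonneg_left (hsq2 _ (norm_nonneg _) hun) hC50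
      _ = _ := by ring
  have hwf : ‖w - f‖ ≤ 2 * s := by
    have : w - f = (w - u) + s • ν := by rw [hu]; abel
    rw [this]
    refine (norm_add_le _ _).trans ?_
    rw [norm_smul, hνn, Real.norm_of_nonneg hs0.le]
    have h1 : 4 * C5 * (s * Real.sqrt s) ≤ s / 2 := by
      have h2 : 4 * C5 * Real.sqrt s ≤ C7 * Real.sqrt s := by
        gcongr
        linarith
      nlinarith
    linarith
  -- iterated midpoints
  have hmid := G.midpt
  choose mm hm1 hm2 using hmid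
  let P : ℕ → M := fun k => Nat.rec (c.ψ w) (fun _ z => mm (c.ψ f) z) k
  have P0 : P 0 = c.ψ w := rfl
  have PS : ∀ k, P (k + 1) = mm (c.ψ f) (P k) := fun k => rfl
  have hP1 : ∀ k, dist (c.ψ f) (P (k + 1)) = dist (c.ψ f) (P k) / 2 := fun k => by
    rw [PS]; exact hm1 _ _
  have hP2 : ∀ k, dist (P (k + 1)) (P k) = dist (c.ψ f) (P k) / 2 := fun k => by
    rw [PS]; exact hm2 _ _
  have hfw : dist (c.ψ f) (c.ψ w) ≤ 2 * c.L * s := by
    have := c.dist_le hf hw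
    nlinarith
  have hPd : ∀ k, dist (c.ψ f) (P k) ≤ 2 * c.L * s := by
    intro k
    induction k with
    | zero => rw [P0]; exact hfw
    | succ k ih =>
      rw [hP1]
      have := dist_nonneg (x := c.ψ f) (y := P k)
      linarith
  have hfF : c.ψ f ∈ F := by rw [hfP]; exact hPf
  have hPF : ∀ k, P k ∈ F := by
    intro k
    induction k with
    | zero => exact hwF
    | succ k ih =>
      intro g hg
      have hgf : g (c.ψ f) = c.ψ f := hfF g hg
      have hgk : g (P k) = P k := ih g hg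
      have h1 := hP1 k
      have h2 := hP2 k
      apply G.midpt_unique (x := c.ψ f) (y := P k) (lt_of_le_of_lt (hPd k) (by nlinarith)) _ _ h1 h2
      · calc dist (c.ψ f) (g (P (k + 1))) = dist (g (c.ψ f)) (g (P (k + 1))) := by rw [hgf]
          _ = dist (c.ψ f) (P (k + 1)) := g.isometry.dist_eq _ _
          _ = _ := h1
      · calc dist (g (P (k + 1))) (P k) = dist (g (P (k + 1))) (g (P k)) := by rw [hgk]
          _ = dist (P (k + 1)) (P k) := g.isometry.dist_eq _ _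
          _ = _ := h2
  have hpf : dist (c.ψ c.x₀) (c.ψ f) ≤ c.L * s := by
    have := c.dist_le (mem_ball_self c.r₁pos) hf
    nlinarith
  have hex : ∀ k, ∃ m ∈ ball c.x₀ c.r₁, c.ψ m = P k := by
    intro k
    obtain ⟨m, h1, h2, _⟩ := near c (y := P k) (by
      have h1 := dist_triangle (c.ψ c.x₀) (c.ψ f) (P k)
      have h2 := hPd k
      linarith)
    exact ⟨m, h1, h2⟩
  choose m hm hmP using hex
  have hm0 : m 0 = w := by
    rw [← c.φψ _ (c.ball_sub (hm 0)), hmP, P0, c.φψ _ (c.ball_sub hw)]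
  have hiter : ∀ k, ‖(2 : ℝ) ^ k • (m k - f) - (m 0 - f)‖ ≤
      K2 c * (‖m 0 - f‖ * Real.sqrt ‖m 0 - f‖) := by
    intro k
    apply iter_est c m hf hm
    · intro k
      rw [hmP, hmP]; exact hP1 k
    · intro k
      rw [hmP, hmP]; exact hP2 k
  rw [hm0] at hiter
  -- choice of the scale
  obtain ⟨n, hn1, hn2⟩ := exists_nat_pow_near_of_lt_one (x := b / s) (y := (1 / 2 : ℝ))
    (by positivity) (by rw [div_le_one hs0]; exact hbs) (by norm_num) (by norm_num)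
  rw [lt_div_iff₀ hs0] at hn1
  rw [div_le_iff₀ hs0] at hn2
  set k := n + 1 with hk
  set lam' := (1 / 2 : ℝ) ^ k * s with hlam'
  have hl1 : lam' ≤ b := hn1.le
  have hl2 : b ≤ 2 * lam' := by
    rw [hlam', hk, pow_succ]
    linarith
  have hl0 : 0 < lam' := by positivity
  have hmk : ‖(m k - f) - lam' • ν‖ ≤ C7 * lam' * Real.sqrt s := by
    have h1 : ‖(2 : ℝ) ^ k • (m k - f) - s • ν‖ ≤ C7 * (s * Real.sqrt s) := by
      have e : (2 : ℝ) ^ k • (m k - f) - s • ν =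
          ((2 : ℝ) ^ k • (m k - f) - (w - f)) + (w - u) := by rw [hu]; abel
      rw [e]
      refine (norm_add_le _ _).trans ?_
      have h2 := hiter k
      have h3 : K2 c * (‖w - f‖ * Real.sqrt ‖w - f‖) ≤ K2 c * (4 * (s * Real.sqrt s)) :=
        mul_le_mul_of_nonneg_left (hsq2 _ (norm_nonneg _) hwf) hK2
      rw [hC7]
      linarith
    have e : (m k - f) - lam' • ν = (1 / 2 : ℝ) ^ k • ((2 : ℝ) ^ k • (m k - f) - s • ν) := by
      have h2 : (1 / 2 : ℝ) ^ k * 2 ^ k = 1 := by rw [← mul_pow]; norm_num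
      have h3 : (1 / 2 : ℝ) ^ k • ((2 : ℝ) ^ k • (m k - f) - s • ν) =
          ((1 / 2 : ℝ) ^ k * 2 ^ k) • (m k - f) - ((1 / 2 : ℝ) ^ k * s) • ν := by module
      rw [h3, h2, one_smul]
    rw [e, norm_smul, Real.norm_of_nonneg (by positivity)]
    calc (1 / 2 : ℝ) ^ k * ‖(2 : ℝ) ^ k • (m k - f) - s • ν‖
        ≤ (1 / 2 : ℝ) ^ k * (C7 * (s * Real.sqrt s)) := by gcongr
      _ = _ := by rw [hlam']; ring
  have hfin := end_est c hyr hf (hm k) hyf hs0 C7 hC70 hs7 hsβ hbs hν hl1 hl2 hmk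
  rw [hmP, hfP] at hfin
  exact absurd (hnear _ (hPF k)) (not_le.mpr hfin)

/-- An isometry which fixes a point with derivative the identity is the identity. -/
theorem rigid {R : ℝ} (G : Geo M E R) [CompactSpace M] [PreconnectedSpace M] (h : M ≃ᵢ M)
    (hh : h ∈ JJ c) : ∀ y, h y = y := by
  obtain ⟨t, ht, H⟩ := rigid_near c G
  have hnh : c.ψ '' ball c.x₀ (min t c.r) ∈ 𝓝 (c.ψ c.x₀) :=
    (c.isOpen_image _ (ball_subset_ball (min_le_right _ _)) isOpen_ball).mem_nhds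
      ⟨c.x₀, mem_ball_self (lt_min ht c.rpos), rfl⟩
  obtain ⟨δ, hδ, hsub⟩ := Metric.mem_nhds_iff.mp hnh
  apply G.eq_id h (x := c.ψ c.x₀)
  refine ⟨δ, hδ, fun y hy => ?_⟩
  obtain ⟨u, hu, rfl⟩ := hsub (by rw [mem_ball, dist_comm]; exact hy)
  exact H u (ball_subset_ball (min_le_left _ _) hu) h hh

end

end Pool.Agent.Q145.Nag
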