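import Pool.Agent.Q145.Nag.C4
import Pool.Agent.Helper381.Riem3

/-! From derivatives in the sense of manifolds to the charts used before. -/

set_option autoImplicit false

namespace Pool.Agent.Q145.Nag

open Pool.Agent.Helper381 Bundle Set Metric Filter Topology Manifold
open scoped ContDiff

noncomputable section

section Surj

/-- an isometry of a compact metric space into itself is onto -/
theorem surj_of_compact {M : Type} [MetricSpace M] [CompactSpace M] (f : M → M)
    (hf : Isometry f) : Function.Surjective f := by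
  intro y
  by_contra hy
  have hcl : IsClosed (range f) := (isCompact_range hf.continuous).isClosed
  have hy' : y ∈ (range f)ᶜ := fun ⟨x, hx⟩ => hy ⟨x, hx⟩
  obtain ⟨ε, hε, hb⟩ := Metric.isOpen_iff.mp hcl.isOpen_compl y hy'
  have hfar : ∀ x, ε ≤ dist y (f x) := by
    intro x
    by_contra h
    push Not at h
    exact hb (by rw [mem_ball, dist_comm]; exact h) ⟨x, rfl⟩
  let u : ℕ → M := fun n => f^[n] y
  obtain ⟨a, φ, hφ, hlim⟩ := CompactSpace.tendsto_subseq u
  have hc := hlim.cauchySeq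
  rw [Metric.cauchySeq_iff] at hc
  obtain ⟨N, hN⟩ := hc ε hε
  have h1 := hN (N + 1) (by omega) N le_rfl
  have hlt : φ N < φ (N + 1) := hφ (by omega)
  have hit : ∀ n : ℕ, Isometry f^[n] := by
    intro n
    induction n with
    | zero => exact isometry_id
    | succ n ih => rw [Function.iterate_succ]; exact ih.comp hf
  have h2 : ∀ n m : ℕ, dist (f^[n] y) (f^[n + (m + 1)] y) = dist y (f (f^[m] y)) := by
    intro n m
    rw [Function.iterate_add_apply, (hit n).dist_eq, Function.iterate_succ_apply']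
  obtain ⟨m, hm⟩ : ∃ m, φ (N + 1) = φ N + (m + 1) := ⟨φ (N + 1) - φ N - 1, by omega⟩
  have h3 := h2 (φ N) m
  rw [← hm] at h3
  have h4 := hfar (f^[m] y)
  rw [← h3, dist_comm] at h4
  exact absurd h1 (not_lt.mpr h4)

/-- the isometric equivalence -/
def toEquiv {M : Type} [MetricSpace M] [CompactSpace M] (f : M → M) (hf : Isometry f) : M ≃ᵢ M :=
  { Equiv.ofBijective f ⟨hf.injective, surj_of_compact f hf⟩ with isometry_toFun := hf }

theorem toEquiv_apply {M : Type} [MetricSpace M] [CompactSpace M] (f : M → M) (hf : Isometry f)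
    (x : M) : toEquiv f hf x = f x := rfl

end Surj

section Deriv

variable {E : Type} [NormedAddCommGroup E] [NormedSpace ℝ E]
  {M : Type} [TopologicalSpace M] [ChartedSpace E M] [IsManifold 𝓘(ℝ, E) ∞ M]

/-- the derivative in the preferred chart at a fixed point -/
theorem hasFDerivAt_chart (f : M → M) (x : M) (hfx : f x = x)
    (hmf : (mfderiv 𝓘(ℝ, E) 𝓘(ℝ, E) f x : E →L[ℝ] E) = -ContinuousLinearMap.id ℝ E) :
    HasFDerivAt (fun u : E => extChartAt 𝓘(ℝ, E) x (f ((extChartAt 𝓘(ℝ, E) x).symm u)))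
      (-ContinuousLinearMap.id ℝ E) (extChartAt 𝓘(ℝ, E) x x) := by
  have hw : writtenInExtChartAt 𝓘(ℝ, E) 𝓘(ℝ, E) x f =
      fun u : E => extChartAt 𝓘(ℝ, E) x (f ((extChartAt 𝓘(ℝ, E) x).symm u)) := by
    unfold writtenInExtChartAt
    rw [hfx]
    rfl
  by_cases h : MDifferentiableAt 𝓘(ℝ, E) 𝓘(ℝ, E) f x
  · have h1 := (mdifferentiableAt_iff f x).mp h
    have h2 := h1.2.hasFDerivWithinAt
    rw [mfderiv, if_pos h] at hmf
    have h3 : HasFDerivWithinAt (writtenInExtChartAt 𝓘(ℝ, E) 𝓘(ℝ, E) x f)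
        (-ContinuousLinearMap.id ℝ E) (range 𝓘(ℝ, E)) (extChartAt 𝓘(ℝ, E) x x) := by
      rw [← hmf]
      exact h2
    rw [hw, ModelWithCorners.range_eq_univ, hasFDerivWithinAt_univ] at h3
    exact h3
  · have h0 : (0 : E →L[ℝ] E) = -ContinuousLinearMap.id ℝ E := by
      rw [← hmf, mfderiv, if_neg h]
      rfl
    have hsub : Subsingleton E := by
      refine subsingleton_of_forall_eq 0 fun v => ?_
      have h1 := congrArg (fun L : E →L[ℝ] E => L v) h0
      have h2 : (0 : E) = -v := h1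
      exact neg_eq_zero.mp h2.symm
    rw [← h0]
    exact hasFDerivAt_of_subsingleton _ _

end Deriv

section Loc

variable {E : Type} [NormedAddCommGroup E] [NormedSpace ℝ E] [FiniteDimensional ℝ E]
  {M : Type} [MetricSpace M] [ChartedSpace E M] [IsManifold 𝓘(ℝ, E) ∞ M]
  [RiemannianBundle (fun (x : M) ↦ TangentSpace 𝓘(ℝ, E) x)]
  [IsContMDiffRiemannianBundle 𝓘(ℝ, E) ∞ E (fun (x : M) ↦ TangentSpace 𝓘(ℝ, E) x)]
  [IsRiemannianManifold 𝓘(ℝ, E) M]

theorem exists_loc' (p : M) : ∃ c : Loc M E, c.ψ c.x₀ = p ∧ c.φ = extChartAt 𝓘(ℝ, E) p ∧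
    c.ψ = (extChartAt 𝓘(ℝ, E) p).symm ∧ c.x₀ = extChartAt 𝓘(ℝ, E) p p := by
  obtain ⟨g, hgx, hgt, hG⟩ := exists_metCoef (E := E) p
  refine ⟨{ toMetCoef := g, φ := extChartAt 𝓘(ℝ, E) p, ψ := psi p,
            φψ := fun v hv => (extChartAt 𝓘(ℝ, E) p).right_inv (hgt hv),
            isOpen_image := fun V hV hVo => isOpen_psi_image p (hV.trans hgt) hVo,
            contφ := ?_, contψ := (continuousOn_extChartAt_symm p).mono hgt,
            up := ?_, lo := ?_ }, ?_, rfl, rfl, hgx⟩
  · apply (continuousOn_extChartAt p).mono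
    rintro _ ⟨v, hv, rfl⟩
    exact (extChartAt 𝓘(ℝ, E) p).map_target (hgt hv)
  · intro x hx y hy K hK h
    apply up_chart p _ K hK
    · intro t ht
      have := h t ht
      rwa [hG] at this
    · intro t ht
      apply hgt
      have := (convex_ball g.x₀ g.r) hx hy (by linarith [ht.2] : (0 : ℝ) ≤ 1 - t) ht.1 (by ring)
      have e : (1 - t) • x + t • y = x + t • (y - x) := by module
      rwa [e] at this
  · intro x hx s K hs hK h y hy
    obtain ⟨w, hw, hwy, hle⟩ := lo_chart p hgt hx hs hK (by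
      intro w hw
      have := h w (by rw [hG]; exact hw)
      refine ⟨this.1, fun v => ?_⟩
      have h2 := this.2 v
      rwa [hG, hG] at h2) y hy
    exact ⟨w, hw, hwy, by rw [hG]; exact hle⟩
  · change psi p g.x₀ = p
    rw [hgx]
    exact extChartAt_to_inv p

/-- an isometry fixing a point with differential minus the identity is a symmetry -/
theorem isSymmetryAt_of_mfderiv [CompactSpace M] [PreconnectedSpace M] (x : M) (f : M → M)
    (hf : Isometry f) (hfx : f x = x)
    (hmf : (mfderiv 𝓘(ℝ, E) 𝓘(ℝ, E) f x : E →L[ℝ] E) = -ContinuousLinearMap.id ℝ E) :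
    IsSymmetryAt x (toEquiv f hf) := by
  obtain ⟨R, G⟩ := riemannian_geo (M := M) (E := E)
  obtain ⟨c, hcx, hφ, hψ, hx0⟩ := exists_loc' (E := E) x
  have hd : HasFDerivAt (fun u => c.φ (toEquiv f hf (c.ψ u))) (-ContinuousLinearMap.id ℝ E)
      c.x₀ := by
    rw [hφ, hψ, hx0]
    exact hasFDerivAt_chart f x hfx hmf
  set s := toEquiv f hf with hs
  have hp : s (c.ψ c.x₀) = c.ψ c.x₀ := by
    rw [hcx]; exact hfx
  have hH0 : c.φ (s (c.ψ c.x₀)) = c.x₀ := by
    rw [hp, c.φψ _ (mem_ball_self c.rpos)]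
  refine ⟨?_, hfx, ?_⟩
  · -- the square is the identity
    have hJ : s * s ∈ JJ c := by
      refine ⟨?_, ?_⟩
      · change s (s _) = _
        rw [hp, hp]
      · have h1 : HasFDerivAt (fun u => c.φ (s (c.ψ u))) (-ContinuousLinearMap.id ℝ E)
            (c.φ (s (c.ψ c.x₀))) := by rw [hH0]; exact hd
        have h2 := h1.comp c.x₀ hd
        have h3 : (-ContinuousLinearMap.id ℝ E).comp (-ContinuousLinearMap.id ℝ E) =
            ContinuousLinearMap.id ℝ E := by
          ext v; simp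
        rw [h3] at h2
        refine h2.congr_of_eventuallyEq ?_
        filter_upwards [nhds_ρ1 c] with u hu
        change c.φ (s (s (c.ψ u))) = c.φ (s (c.ψ (c.φ (s (c.ψ u)))))
        rw [(phi_near c s hp hu).2.1]
    exact rigid c G (s * s) hJ
  · -- isolated
    have h1 := hd.isLittleO.def (show (0 : ℝ) < 1 / 2 by norm_num)
    rw [hH0] at h1
    obtain ⟨δ, hδ, hball⟩ := Metric.eventually_nhds_iff.mp h1
    have hnh : c.ψ '' ball c.x₀ (min δ c.r) ∈ 𝓝 (c.ψ c.x₀) :=
      (c.isOpen_image _ (ball_subset_ball (min_le_right _ _)) isOpen_ball).mem_nhds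
        ⟨c.x₀, mem_ball_self (lt_min hδ c.rpos), rfl⟩
    obtain ⟨ε, hε, hsub⟩ := Metric.mem_nhds_iff.mp hnh
    refine ⟨ε, hε, fun y hy hsy => ?_⟩
    obtain ⟨u, hu, rfl⟩ := hsub (by rw [mem_ball, hcx]; exact hy)
    have h2 := hball (y := u) (lt_of_lt_of_le hu (min_le_left _ _))
    rw [hsy, c.φψ u (ball_subset_ball (min_le_right _ _) hu)] at h2
    have h3 : u - c.x₀ - (-ContinuousLinearMap.id ℝ E) (u - c.x₀) = (2 : ℝ) • (u - c.x₀) := by
      change u - c.x₀ - -(u - c.x₀) = _
      rw [two_smul]; abel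
    rw [h3, norm_smul, Real.norm_of_nonneg (by norm_num)] at h2
    have h4 := norm_nonneg (u - c.x₀)
    have h5 : ‖u - c.x₀‖ = 0 := by linarith
    have h6 : u = c.x₀ := by rwa [norm_eq_zero, sub_eq_zero] at h5
    rw [h6, hcx]

end Loc

end

end Pool.Agent.Q145.Nag
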