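import Pool.Agent.Q145.Nag.D1
import Pool.Agent.Q145.Nag.A2
import Pool.Agent.Q145.Nag.B4

/-! Two-numbers, Betti numbers and 2-torsion: assembly. -/

set_option autoImplicit false

namespace Pool.Agent.Q145.Nag

open Pool.Agent.Helper381 Pool.Agent.TH592.Nag Bundle Set Metric Filter Topology Manifold Module
open scoped ContDiff

noncomputable section

variable {E : Type} [NormedAddCommGroup E] [NormedSpace ℝ E] [FiniteDimensional ℝ E]
  {M : Type} [MetricSpace M] [ChartedSpace E M] [IsManifold 𝓘(ℝ, E) ∞ M]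
  [RiemannianBundle (fun (x : M) ↦ TangentSpace 𝓘(ℝ, E) x)]
  [IsContMDiffRiemannianBundle 𝓘(ℝ, E) ∞ E (fun (x : M) ↦ TangentSpace 𝓘(ℝ, E) x)]
  [IsRiemannianManifold 𝓘(ℝ, E) M]

theorem main_hm [CompactSpace M] [ConnectedSpace M] (s : M → M → M)
    (hs : ∀ x : M, Isometry (s x) ∧ s x x = x ∧
      (mfderiv 𝓘(ℝ, E) 𝓘(ℝ, E) (s x) x : E →L[ℝ] E) = -ContinuousLinearMap.id ℝ E)
    (A : Finset M) (hA : ∀ x ∈ A, ∀ y ∈ A, s x y = y)
    (hlt : ∑ i ∈ Finset.range (finrank ℝ E + 1), finrank ℝ (Hm ℝ M i) < A.card)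
    (h2 : ∀ m, ∀ z : Sing M m →₀ ℤ, z ∈ cyc ℤ M m → (2 : ℤ) • z ∈ bou ℤ M m → z ∈ bou ℤ M m) :
    False := by
  classical
  have : Fact (Nat.Prime 2) := ⟨Nat.prime_two⟩
  obtain ⟨R, G⟩ := riemannian_geo (M := M) (E := E)
  have hpar : Par M E := par_of_loc (fun p => exists_loc (E := E) p)
  have hant : IsAntipodal (A : Set M) := by
    intro x hx y hy
    obtain ⟨h1, h2, h3⟩ := hs x
    exact ⟨toEquiv (s x) h1, isSymmetryAt_of_mfderiv (E := E) x (s x) h1 h2 h3,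
      hA x hx y hy⟩
  have hcard := G.card_le A hant
  obtain ⟨a1, _⟩ := G.betti_finite (M := M) (ZMod 2)
  obtain ⟨a2, _⟩ := G.betti_finite (M := M) ℝ
  have hvan : ∀ n, finrank ℝ E + 1 ≤ n → finrank (ZMod 2) (SingCoh (ZMod 2) M n) = 0 := by
    intro n hn
    obtain ⟨q, rfl⟩ : ∃ q, n = q + 1 := ⟨n - 1, by omega⟩
    have := coh_vanish G hpar (ZMod 2) q (by omega)
    exact finrank_zero_of_subsingleton
  rw [totalBetti_eq (finrank ℝ E + 1) a1 hvan, Nat.cast_le] at hcard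
  have hle : ∑ n ∈ Finset.range (finrank ℝ E + 1), finrank (ZMod 2) (SingCoh (ZMod 2) M n) ≤
      ∑ n ∈ Finset.range (finrank ℝ E + 1), finrank ℝ (Hm ℝ M n) := by
    apply Finset.sum_le_sum
    intro n _
    rw [finrank_singCoh]
    exact finrank_le n h2 (finite_Hm ℝ M n (a2 n))
  omega

end

end Pool.Agent.Q145.Nag
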