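import Pool.Agent.Q145.Nag.D2

/-! Extended metrics and 2-torsion elements. -/

set_option autoImplicit false

namespace Pool.Agent.Q145.Nag

open Pool.Agent.Helper381 Pool.Agent.TH592.Nag Bundle Set Metric Filter Topology Manifold Module
open scoped ContDiff ENNReal

noncomputable section

/-- in a connected space the extended distance is locally, hence globally, finite -/
theorem edist_ne_top {M : Type} [EMetricSpace M] [PreconnectedSpace M] (x y : M) :
    edist x y ≠ ⊤ := by
  have h : IsClopen {z : M | edist x z < ⊤} := by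
    constructor
    · rw [← isOpen_compl_iff, EMetric.isOpen_iff]
      intro z hz
      refine ⟨1, one_pos, fun w hw hw' => hz ?_⟩
      have h1 : edist x z ≤ edist x w + edist w z := edist_triangle _ _ _
      have h2 : edist w z < 1 := hw
      exact lt_of_le_of_lt h1 (ENNReal.add_lt_top.mpr ⟨hw', lt_trans h2 ENNReal.one_lt_top⟩)
    · rw [EMetric.isOpen_iff]
      intro z hz
      refine ⟨1, one_pos, fun w hw => ?_⟩
      have h1 : edist x w ≤ edist x z + edist z w := edist_triangle _ _ _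
      have h2 : edist z w < 1 := by rw [edist_comm]; exact hw
      exact lt_of_le_of_lt h1 (ENNReal.add_lt_top.mpr ⟨hz, lt_trans h2 ENNReal.one_lt_top⟩)
  have h2 := h.eq_univ ⟨x, by simp⟩
  have h3 : y ∈ {z : M | edist x z < ⊤} := by rw [h2]; trivial
  exact ne_of_lt h3

open CategoryTheory AlgebraicTopology in
theorem no_torsion {X : Type} [TopologicalSpace X]
    (h : ¬ ∃ i : ℕ, ∃ g : ((((AlgebraicTopology.singularHomologyFunctor (ModuleCat.{0} ℤ) i).obj
            (ModuleCat.of ℤ ℤ)).obj (TopCat.of X) : ModuleCat.{0} ℤ) : Type),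
      addOrderOf g = 2) :
    ∀ m, ∀ z : Sing X m →₀ ℤ, z ∈ cyc ℤ X m → (2 : ℤ) • z ∈ bou ℤ X m → z ∈ bou ℤ X m := by
  intro m z hz h2
  by_contra hzb
  obtain ⟨e⟩ := bridge ℤ X m
  apply h
  refine ⟨m, e.symm (Submodule.Quotient.mk ⟨z, hz⟩), ?_⟩
  have : Fact (Nat.Prime 2) := ⟨Nat.prime_two⟩
  apply addOrderOf_eq_prime
  · have h3 : (2 : ℕ) • (Submodule.Quotient.mk ⟨z, hz⟩ : Hm ℤ X m) = 0 := by
      rw [← Submodule.Quotient.mk_smul, Submodule.Quotient.mk_eq_zero]
      have : (2 : ℕ) • z = (2 : ℤ) • z := by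
        rw [← natCast_zsmul]; rfl
      change (2 : ℕ) • z ∈ bou ℤ X m
      rw [this]
      exact h2
    rw [← map_nsmul, h3, map_zero]
  · intro h0
    rw [LinearEquiv.map_eq_zero_iff, Submodule.Quotient.mk_eq_zero] at h0
    exact hzb h0

theorem finrank_bridge (X : Type) [TopologicalSpace X] (n : ℕ) :
    Module.finrank ℝ ((((AlgebraicTopology.singularHomologyFunctor (ModuleCat.{0} ℝ) n).obj
            (ModuleCat.of ℝ ℝ)).obj (TopCat.of X) : ModuleCat.{0} ℝ) : Type) =
      finrank ℝ (Hm ℝ X n) := by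
  obtain ⟨e⟩ := bridge ℝ X n
  exact e.finrank_eq

end

end Pool.Agent.Q145.Nag
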